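import Mathlib

/-!
# Large groups, Golod-Shafarevich presentations: definitions
-/

set_option autoImplicit false

namespace Pool.H96.GS

/-- `G` is large: a subgroup of finite index maps onto the free group of rank two. -/
def Large (G : Type*) [Group G] : Prop :=
  ∃ H : Subgroup G, H.FiniteIndex ∧ ∃ f : H →* FreeGroup (Fin 2), Function.Surjective f

/-- finitely presented groups -/
def FP (G : Type) [Group G] : Prop :=
  ∃ n : ℕ, ∃ S : Finset (FreeGroup (Fin n)), ∃ ψ : FreeGroup (Fin n) →* G,
    Function.Surjective ψ ∧ ψ.ker = Subgroup.normalClosure (S : Set (FreeGroup (Fin n)))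

/-- the `n`-th power of the augmentation ideal of the group algebra over `ZMod p` of the free
group of rank `d` -/
noncomputable def M (p d n : ℕ) : Submodule (ZMod p) (MonoidAlgebra (ZMod p) (FreeGroup (Fin d))) :=
  (Submodule.span (ZMod p) (Set.range (fun g : FreeGroup (Fin d) =>
    MonoidAlgebra.of (ZMod p) (FreeGroup (Fin d)) g - 1))) ^ n

/-- the degree of a word with respect to `p` -/
noncomputable def deg (p : ℕ) {d : ℕ} (r : FreeGroup (Fin d)) : ℕ :=
  sSup {n : ℕ | MonoidAlgebra.of (ZMod p) (FreeGroup (Fin d)) r - 1 ∈ M p d n}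

/-- the Golod-Shafarevich inequality for the set `S` of relators -/
def GSIneq (p d : ℕ) (S : Set (FreeGroup (Fin d))) : Prop :=
  ∃ t : ℝ, 0 < t ∧ t < 1 ∧
    Summable (fun r : S => t ^ deg p (r : FreeGroup (Fin d))) ∧
    1 - (d : ℝ) * t + ∑' r : S, t ^ deg p (r : FreeGroup (Fin d)) < 0

/-- the subgroup generated by the letters in `C` -/
def blk {d : ℕ} (C : Set (Fin d)) : Subgroup (FreeGroup (Fin d)) :=
  Subgroup.closure (FreeGroup.of '' C)

/-- the product of `[N, N]`, of the subgroup generated by the `l`-th powers of the elements of `N`,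
and of the normal closure of the elements of `N` that are words in the letters of one set of the
family `Cs` -/
def Zl {d : ℕ} (l : ℕ) (N : Subgroup (FreeGroup (Fin d))) (Cs : Set (Set (Fin d))) :
    Subgroup (FreeGroup (Fin d)) :=
  Subgroup.normalClosure {x | x ∈ N ∧ ∃ C ∈ Cs, x ∈ blk C} ⊔
    (⁅N, N⁆ ⊔ Subgroup.closure {x | ∃ n ∈ N, x = n ^ l})

end Pool.H96.GS
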