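import Pool.Agent.Helper96.GS.Quot2

/-!
# Finite presentability, transfer of largeness, and degrees of powers
-/

set_option autoImplicit false
set_option linter.unusedSectionVars false

namespace Pool.H96.GS

open Equiv Classical Module MonoidAlgebra

section fp

theorem Large.of_surjective {G Q : Type*} [Group G] [Group Q] (f : G →* Q)
    (hf : Function.Surjective f) (h : Large Q) : Large G := by
  obtain ⟨H, hH, g, hg⟩ := h
  refine ⟨H.comap f, ?_, g.comp (f.subgroupComap H), hg.comp ?_⟩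
  · exact ⟨by
      rw [Subgroup.index_comap_of_surjective _ hf]
      exact hH.index_ne_zero⟩
  · rintro ⟨y, hy⟩
    obtain ⟨x, rfl⟩ := hf y
    exact ⟨⟨x, hy⟩, rfl⟩

theorem mem_normalClosure_finite {G : Type*} [Group G] {R : Set G} {w : G}
    (hw : w ∈ Subgroup.normalClosure R) :
    ∃ R0 ⊆ R, R0.Finite ∧ w ∈ Subgroup.normalClosure R0 := by
  let H : Subgroup G :=
    { carrier := {w | ∃ R0 ⊆ R, R0.Finite ∧ w ∈ Subgroup.normalClosure R0}
      one_mem' := ⟨∅, Set.empty_subset _, Set.finite_empty, one_mem _⟩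
      mul_mem' := by
        rintro a b ⟨R1, h1, hf1, ha⟩ ⟨R2, h2, hf2, hb⟩
        exact ⟨R1 ∪ R2, Set.union_subset h1 h2, hf1.union hf2,
          mul_mem (Subgroup.normalClosure_mono Set.subset_union_left ha)
            (Subgroup.normalClosure_mono Set.subset_union_right hb)⟩
      inv_mem' := by
        rintro a ⟨R1, h1, hf1, ha⟩
        exact ⟨R1, h1, hf1, inv_mem ha⟩ }
  have hn : H.Normal := by
    constructor
    rintro a ⟨R1, h1, hf1, ha⟩ g
    exact ⟨R1, h1, hf1, Subgroup.normalClosure_normal.conj_mem a ha g⟩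
  have hle : Subgroup.normalClosure R ≤ H := by
    refine Subgroup.normalClosure_le_normal fun r hr => ?_
    exact ⟨{r}, Set.singleton_subset_iff.mpr hr, Set.finite_singleton r,
      Subgroup.subset_normalClosure rfl⟩
  exact hle hw

theorem finite_subset {X : Type*} [Finite X] {G : Type*} [Group G]
    (hfp : ∃ n : ℕ, ∃ S : Finset (FreeGroup (Fin n)), ∃ ψ : FreeGroup (Fin n) →* G,
      Function.Surjective ψ ∧ ψ.ker = Subgroup.normalClosure (S : Set (FreeGroup (Fin n))))
    (φ : FreeGroup X →* G) (hφ : Function.Surjective φ) (R : Set (FreeGroup X))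
    (hR : φ.ker = Subgroup.normalClosure R) :
    ∃ R0 ⊆ R, R0.Finite ∧ φ.ker = Subgroup.normalClosure R0 := by
  obtain ⟨n, S, ψ, hψ, hS⟩ := hfp
  let α : FreeGroup (Fin n) →* FreeGroup X :=
    FreeGroup.lift fun i => Function.surjInv hφ (ψ (FreeGroup.of i))
  let β : FreeGroup X →* FreeGroup (Fin n) :=
    FreeGroup.lift fun x => Function.surjInv hψ (φ (FreeGroup.of x))
  have hα : φ.comp α = ψ := by
    ext i
    simp [α, Function.surjInv_eq]
  have hβ : ψ.comp β = φ := by
    ext i
    simp [β, Function.surjInv_eq]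
  have hα' : ∀ w, φ (α w) = ψ w := fun w => DFunLike.congr_fun hα w
  have hβ' : ∀ w, ψ (β w) = φ w := fun w => DFunLike.congr_fun hβ w
  let T : Set (FreeGroup X) := (α '' (S : Set (FreeGroup (Fin n)))) ∪
    Set.range (fun x : X => (α (β (FreeGroup.of x)))⁻¹ * FreeGroup.of x)
  have hTfin : T.Finite := (S.finite_toSet.image α).union (Set.finite_range _)
  have hTker : ∀ x ∈ T, x ∈ φ.ker := by
    rintro _ (⟨s, hs, rfl⟩ | ⟨x, rfl⟩)
    · rw [MonoidHom.mem_ker, hα', ← MonoidHom.mem_ker, hS]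
      exact Subgroup.subset_normalClosure hs
    · rw [MonoidHom.mem_ker, map_mul, map_inv, hα', hβ', inv_mul_cancel]
  have hkerT : φ.ker ≤ Subgroup.normalClosure T := by
    let π := QuotientGroup.mk' (Subgroup.normalClosure T)
    have hπ : π.comp (α.comp β) = π := by
      ext x
      show QuotientGroup.mk' (Subgroup.normalClosure T) _ = QuotientGroup.mk' _ _
      rw [QuotientGroup.mk'_apply, QuotientGroup.mk'_apply, QuotientGroup.eq]
      exact Subgroup.subset_normalClosure (Or.inr ⟨x, rfl⟩)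
    intro w hw
    have h1 : π w = π (α (β w)) := (DFunLike.congr_fun hπ w).symm
    have h2 : β w ∈ ψ.ker := by
      rw [MonoidHom.mem_ker, hβ']
      exact hw
    rw [hS] at h2
    have h3 : Subgroup.normalClosure (S : Set (FreeGroup (Fin n))) ≤
        (Subgroup.normalClosure T).comap α := by
      refine Subgroup.normalClosure_le_normal fun s hs => ?_
      exact Subgroup.subset_normalClosure (Or.inl ⟨s, hs, rfl⟩)
    have h4 : π (α (β w)) = 1 := (QuotientGroup.eq_one_iff _).mpr (h3 h2)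
    rw [h4] at h1
    exact (QuotientGroup.eq_one_iff _).mp h1
  have hex : ∀ x : T, ∃ R0 ⊆ R, R0.Finite ∧ (x : FreeGroup X) ∈ Subgroup.normalClosure R0 := by
    intro x
    refine mem_normalClosure_finite ?_
    rw [← hR]
    exact hTker x x.2
  choose r hr1 hr2 hr3 using hex
  have : Finite T := hTfin
  refine ⟨⋃ x, r x, Set.iUnion_subset hr1, Set.finite_iUnion hr2, le_antisymm ?_ ?_⟩
  · refine hkerT.trans (Subgroup.normalClosure_le_normal fun x hx => ?_)
    exact Subgroup.normalClosure_mono (Set.subset_iUnion r ⟨x, hx⟩) (hr3 ⟨x, hx⟩)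
  · rw [hR]
    exact Subgroup.normalClosure_mono (Set.iUnion_subset hr1)

/-- finitely presented groups: largeness can be tested on finite sets of relators -/
theorem large_of_fp {X : Type*} [Finite X] {G : Type*} [Group G]
    (hfp : ∃ n : ℕ, ∃ S : Finset (FreeGroup (Fin n)), ∃ ψ : FreeGroup (Fin n) →* G,
      Function.Surjective ψ ∧ ψ.ker = Subgroup.normalClosure (S : Set (FreeGroup (Fin n))))
    (φ : FreeGroup X →* G) (hφ : Function.Surjective φ) (R : Set (FreeGroup X))
    (hR : φ.ker = Subgroup.normalClosure R)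
    (h : ∀ R0 ⊆ R, R0.Finite → Large (FreeGroup X ⧸ Subgroup.normalClosure R0)) : Large G := by
  obtain ⟨R0, h0, hfin, hker⟩ := finite_subset hfp φ hφ R hR
  let e : FreeGroup X ⧸ Subgroup.normalClosure R0 ≃* G :=
    (QuotientGroup.quotientMulEquivOfEq hker.symm).trans
      (QuotientGroup.quotientKerEquivOfSurjective φ hφ)
  exact Large.of_surjective e.symm.toMonoidHom e.symm.surjective (h R0 h0 hfin)

end fp

section deg

variable {k X : Type*} [Field k] [Fintype X]

theorem mem_Fil_pow_iff {l : ℕ} (hl : (l : k) ≠ 0) (v : FreeGroup X) {n : ℕ} (hn : 1 ≤ n) :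
    ι k (v ^ l) - 1 ∈ Fil k X n ↔ ι k v - 1 ∈ Fil k X n := by
  have hpow : ι k (v ^ l) = (ι k v) ^ l := map_pow (MonoidAlgebra.of k (FreeGroup X)) v l
  set u : (MonoidAlgebra k (FreeGroup X)) := ∑ i ∈ Finset.range l, (ι k v) ^ i with hu
  have hfac : (ι k v - 1) * u = ι k (v ^ l) - 1 := by
    rw [hpow, hu]
    exact mul_geom_sum (ι k v) l
  have hεu : ε u = (l : k) := by
    rw [hu, map_sum]
    simp [ε_ι]
  constructor
  · intro h
    induction n, hn using Nat.le_induction with
    | base =>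
      rw [Fil_one]
      exact sub_mem_Mi v
    | succ n hn ih =>
      have h1 := ih (Fil_succ_le n h)
      have h2 : u - algebraMap k (MonoidAlgebra k (FreeGroup X)) (l : k) ∈ Mi k X := by
        rw [mem_Mi, map_sub, hεu, AlgHom.commutes]
        simp
      have h3 : (ι k v - 1) * (u - algebraMap k (MonoidAlgebra k (FreeGroup X)) (l : k)) ∈ Fil k X (n + 1) :=
        Submodule.mul_mem_mul h1 h2
      rw [mul_sub, hfac] at h3
      have h4 := Submodule.sub_mem _ h h3
      rw [sub_sub_cancel, ← Algebra.commutes, ← Algebra.smul_def] at h4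
      have h5 := Submodule.smul_mem _ ((l : k)⁻¹) h4
      rwa [smul_smul, inv_mul_cancel₀ hl, one_smul] at h5
  · intro h
    rw [← hfac]
    exact Fil_mul_top n (Submodule.mul_mem_mul h Submodule.mem_top)

theorem sSup_congr_of_pos {A A' : Set ℕ} (h1 : 1 ∈ A) (h : ∀ n, 1 ≤ n → (n ∈ A ↔ n ∈ A')) :
    sSup A = sSup A' := by
  have h1' : 1 ∈ A' := (h 1 le_rfl).mp h1
  have key : ∀ A A' : Set ℕ, 1 ∈ A → (∀ n, 1 ≤ n → (n ∈ A ↔ n ∈ A')) → BddAbove A →
      BddAbove A' ∧ sSup A ≤ sSup A' := by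
    intro A A' h1 h hb
    have hb' : BddAbove A' := by
      obtain ⟨c, hc⟩ := hb
      refine ⟨c, fun n hn => ?_⟩
      by_cases h0 : 1 ≤ n
      · exact hc ((h n h0).mpr hn)
      · omega
    have hm := Nat.sSup_mem ⟨1, h1⟩ hb
    exact ⟨hb', le_csSup hb' ((h _ (le_csSup hb h1)).mp hm)⟩
  have h' : ∀ n, 1 ≤ n → (n ∈ A' ↔ n ∈ A) := fun n hn => (h n hn).symm
  by_cases hb : BddAbove A
  · obtain ⟨hb', h2⟩ := key A A' h1 h hb
    exact le_antisymm h2 (key A' A h1' h' hb').2
  · have hb' : ¬ BddAbove A' := fun hc => hb (key A' A h1' h' hc).1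
    rw [Nat.sSup_of_not_bddAbove hb, Nat.sSup_of_not_bddAbove hb']

theorem sSup_degSet_pow {l : ℕ} (hl : (l : k) ≠ 0) (v : FreeGroup X) :
    sSup (degSet k (v ^ l)) = sSup (degSet k v) := by
  refine sSup_congr_of_pos (one_mem_degSet _) fun n hn => ?_
  show ι k (v ^ l) - 1 ∈ (Mi k X) ^ n ↔ ι k v - 1 ∈ (Mi k X) ^ n
  rw [pow_Mi hn]
  exact mem_Fil_pow_iff hl v hn

end deg

end Pool.H96.GS
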