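import Pool.Agent.Helper96.GS.Ineq

/-!
# Growth of the truncations under the Golod-Shafarevich inequality
-/

set_option autoImplicit false
set_option linter.unusedSectionVars false

namespace Pool.H96.GS

open Equiv Classical Module MonoidAlgebra

section real

theorem shift_one {t : ℝ} (ht : 0 ≤ t) (g : ℕ → ℝ) (hg : ∀ n, 0 ≤ g n) (h0 : g 0 = 0) (N : ℕ) :
    ∑ n ∈ Finset.range N, t ^ n * g (n - 1) ≤ t * ∑ n ∈ Finset.range N, t ^ n * g n := by
  cases N with
  | zero => simp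
  | succ N =>
    rw [Finset.sum_range_succ' (fun n => t ^ n * g (n - 1)), Finset.sum_range_succ]
    have h1 : ∀ n, t ^ (n + 1) * g (n + 1 - 1) = t * (t ^ n * g n) := by
      intro n
      rw [Nat.add_sub_cancel, pow_succ]; ring
    rw [Finset.sum_congr rfl fun n _ => h1 n, ← Finset.mul_sum]
    have h2 : 0 ≤ t ^ N * g N := mul_nonneg (pow_nonneg ht _) (hg _)
    have h3 : t ^ 0 * g (0 - 1) = 0 := by rw [Nat.zero_sub, h0, mul_zero]
    rw [h3, add_zero, mul_add]
    have := mul_nonneg ht h2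
    linarith

theorem shift {t : ℝ} (ht : 0 ≤ t) (b : ℕ → ℝ) (hb : ∀ n, 0 ≤ b n) (h0 : b 0 = 0) (N m : ℕ) :
    ∑ n ∈ Finset.range N, t ^ n * b (n - m) ≤ t ^ m * ∑ n ∈ Finset.range N, t ^ n * b n := by
  induction m with
  | zero => simp
  | succ m ih =>
    have h1 := shift_one ht (fun n => b (n - m)) (fun n => hb _) (by simp only [Nat.zero_sub]; exact h0) N
    have h2 : ∀ n, b (n - (m + 1)) = b (n - 1 - m) := by
      intro n
      congr 1
      omega
    rw [Finset.sum_congr rfl fun n _ => by rw [h2 n]]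
    refine h1.trans ?_
    rw [pow_succ, mul_comm (t ^ m) t, mul_assoc]
    exact mul_le_mul_of_nonneg_left ih ht

theorem growth {σ : Type*} {t : ℝ} (ht : 0 < t) (d : ℕ) (b : ℕ → ℕ) (hb0 : b 0 = 0)
    (T : Finset σ) (m : σ → ℕ) (hm : ∀ s ∈ T, 1 ≤ m s) (N : ℕ) (hN : 1 ≤ N)
    (hineq : ∀ n < N, 1 + d * b n ≤ b (n + 1) + ∑ s ∈ T, b (n + 1 - m s))
    (hH : 1 - d * t + ∑ s ∈ T, t ^ m s ≤ 0) : t ≤ t ^ N * b N := by
  set c : ℕ → ℝ := fun n => (b n : ℝ) with hc
  have hc0 : c 0 = 0 := by simp [hc, hb0]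
  have hcn : ∀ n, 0 ≤ c n := fun n => Nat.cast_nonneg _
  set B : ℝ := ∑ n ∈ Finset.range N, t ^ n * c n with hB
  have hBn : 0 ≤ B := Finset.sum_nonneg fun n _ => mul_nonneg (pow_nonneg ht.le _) (hcn n)
  have h1 : ∑ n ∈ Finset.range N, t ^ n * (1 + d * c n) ≤
      ∑ n ∈ Finset.range N, t ^ n * (c (n + 1) + ∑ s ∈ T, c (n + 1 - m s)) := by
    refine Finset.sum_le_sum fun n hn => ?_
    refine mul_le_mul_of_nonneg_left ?_ (pow_nonneg ht.le _)
    have := hineq n (Finset.mem_range.mp hn)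
    simp only [hc]
    exact_mod_cast this
  have h2 : ∑ n ∈ Finset.range N, t ^ n * (1 + d * c n) =
      ∑ n ∈ Finset.range N, t ^ n + d * B := by
    rw [hB, Finset.mul_sum, ← Finset.sum_add_distrib]
    exact Finset.sum_congr rfl fun n _ => by ring
  have h3 : (1 : ℝ) ≤ ∑ n ∈ Finset.range N, t ^ n := by
    have := Finset.single_le_sum (f := fun n => t ^ n) (fun n _ => pow_nonneg ht.le n)
      (Finset.mem_range.mpr hN : 0 ∈ Finset.range N)
    simpa using this
  have h4 : ∑ n ∈ Finset.range N, t ^ n * (c (n + 1) + ∑ s ∈ T, c (n + 1 - m s)) =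
      ∑ n ∈ Finset.range N, t ^ n * c (n + 1) +
        ∑ s ∈ T, ∑ n ∈ Finset.range N, t ^ n * c (n + 1 - m s) := by
    rw [Finset.sum_comm, ← Finset.sum_add_distrib]
    refine Finset.sum_congr rfl fun n _ => ?_
    rw [mul_add, Finset.mul_sum]
  have h5 : t * ∑ n ∈ Finset.range N, t ^ n * c (n + 1) = B + t ^ N * c N := by
    have e1 : ∑ n ∈ Finset.range (N + 1), t ^ n * c n = B + t ^ N * c N := by
      rw [Finset.sum_range_succ]
    rw [← e1, Finset.sum_range_succ', hc0, mul_zero, add_zero, Finset.mul_sum]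
    refine Finset.sum_congr rfl fun n _ => ?_
    rw [pow_succ]; ring
  have h6 : ∀ s ∈ T, t * ∑ n ∈ Finset.range N, t ^ n * c (n + 1 - m s) ≤ t ^ m s * B := by
    intro s hs
    obtain ⟨m', hm'⟩ : ∃ m', m s = m' + 1 := ⟨m s - 1, by have := hm s hs; omega⟩
    rw [hm', pow_succ, mul_comm (t ^ m') t, mul_assoc]
    refine mul_le_mul_of_nonneg_left ?_ ht.le
    have := shift ht.le c hcn hc0 N m'
    refine le_trans (le_of_eq ?_) this
    refine Finset.sum_congr rfl fun n _ => ?_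
    congr 2
    omega
  have h7 : t * (∑ s ∈ T, ∑ n ∈ Finset.range N, t ^ n * c (n + 1 - m s)) ≤
      (∑ s ∈ T, t ^ m s) * B := by
    rw [Finset.mul_sum, Finset.sum_mul]
    exact Finset.sum_le_sum h6
  rw [h2, h4] at h1
  have h8 := mul_le_mul_of_nonneg_left h1 ht.le
  rw [mul_add, mul_add, h5] at h8
  have h9 : (1 - d * t + ∑ s ∈ T, t ^ m s) * B ≤ 0 := mul_nonpos_of_nonpos_of_nonneg hH hBn
  have h10 : t * 1 ≤ t * ∑ n ∈ Finset.range N, t ^ n := mul_le_mul_of_nonneg_left h3 ht.le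
  show t ≤ t ^ N * c N
  nlinarith

theorem exists_small {t : ℝ} (ht : 0 < t) (ht1 : t < 1) (C : ℕ) :
    ∃ N : ℕ, 2 ≤ N ∧ t ^ N * (max (2 * N) C : ℕ) < t := by
  have h1 : Filter.Tendsto (fun n : ℕ => 2 * ((n : ℝ) * t ^ n)) Filter.atTop (nhds 0) := by
    have := (tendsto_self_mul_const_pow_of_lt_one ht.le ht1).const_mul (2 : ℝ)
    simpa using this
  have h2 : Filter.Tendsto (fun n : ℕ => (C : ℝ) * t ^ n) Filter.atTop (nhds 0) := by
    have := (tendsto_pow_atTop_nhds_zero_of_lt_one ht.le ht1).const_mul (C : ℝ)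
    simpa using this
  have h3 := h1.add h2
  rw [add_zero] at h3
  have h4 := (h3.eventually (gt_mem_nhds ht)).and (Filter.eventually_ge_atTop 2)
  obtain ⟨N, hN, hN1⟩ := h4.exists
  refine ⟨N, hN1, lt_of_le_of_lt ?_ hN⟩
  have h5 : ((max (2 * N) C : ℕ) : ℝ) ≤ 2 * N + C := by
    have : max (2 * N) C ≤ 2 * N + C := by omega
    exact_mod_cast this
  have h6 := mul_le_mul_of_nonneg_left h5 (pow_nonneg ht.le N)
  linarith

end real

section gs

variable {k X : Type*} [Field k] [Fintype X]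

variable (k) in
/-- the set of exponents `n` with `s - 1 ∈ M ^ n` -/
def degSet (s : FreeGroup X) : Set ℕ := {n : ℕ | ι k s - 1 ∈ (Mi k X) ^ n}

theorem sub_mem_Mi (s : FreeGroup X) : ι k s - 1 ∈ Mi k X := Submodule.subset_span ⟨s, rfl⟩

theorem one_mem_degSet (s : FreeGroup X) : 1 ∈ degSet k s := by
  show ι k s - 1 ∈ (Mi k X) ^ 1
  rw [pow_one]
  exact sub_mem_Mi s

theorem gs_growth (S : Set (FreeGroup X)) (t : ℝ) (ht : 0 < t) (ht1 : t < 1)
    (hsum : Summable fun r : S => t ^ sSup (degSet k (r : FreeGroup X)))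
    (hlt : 1 - (Fintype.card X : ℝ) * t + ∑' r : S, t ^ sSup (degSet k (r : FreeGroup X)) < 0)
    (C : ℕ) : ∃ N, 2 ≤ N ∧ C < bdim k S N ∧ 2 * N < bdim k S N := by
  obtain ⟨N, hN2, hsmall⟩ := exists_small ht ht1 C
  have hN : 1 ≤ N := by omega
  refine ⟨N, hN2, ?_⟩
  set dg : FreeGroup X → ℕ := fun s => sSup (degSet k s) with hdg
  set f : S → ℝ := fun r => t ^ dg r with hf
  have hfin : {r : S | t ^ N ≤ f r}.Finite := by
    have h1 := hsum.tendsto_cofinite_zero
    have h2 := h1.eventually (gt_mem_nhds (pow_pos ht N))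
    have h3 := Filter.eventually_cofinite.mp h2
    refine h3.subset fun r hr => ?_
    exact not_lt.mpr hr
  set T0 : Finset S := hfin.toFinset.filter fun r : S => BddAbove (degSet k (r : FreeGroup X))
    with hT0
  set T : Finset (FreeGroup X) := T0.map (Function.Embedding.subtype _) with hT
  have hmem : ∀ s ∈ T, s ∈ S ∧ BddAbove (degSet k s) := by
    intro s hs
    rw [hT, Finset.mem_map] at hs
    obtain ⟨r, hr, rfl⟩ := hs
    exact ⟨r.2, (Finset.mem_filter.mp hr).2⟩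
  have hin : ∀ s ∈ T, dg s ∈ degSet k s ∧ 1 ≤ dg s := by
    intro s hs
    have hb := (hmem s hs).2
    exact ⟨Nat.sSup_mem ⟨1, one_mem_degSet s⟩ hb, le_csSup hb (one_mem_degSet s)⟩
  have hm : ∀ s ∈ T, ι k s - 1 ∈ Fil k X (dg s) := by
    intro s hs
    have := (hin s hs).1
    rw [← pow_Mi (hin s hs).2]
    exact this
  have hrest : ∀ s ∈ S, s ∉ T → ι k s - 1 ∈ Fil k X N := by
    intro s hs hsT
    by_cases hb : BddAbove (degSet k s)
    · have h1 : ¬ (t ^ N ≤ t ^ dg s) := by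
        intro hle
        refine hsT ?_
        rw [hT, Finset.mem_map]
        refine ⟨⟨s, hs⟩, ?_, rfl⟩
        rw [hT0, Finset.mem_filter]
        exact ⟨hfin.mem_toFinset.mpr hle, hb⟩
      have h2 : N ≤ dg s := by
        by_contra hcon
        exact h1 (pow_le_pow_of_le_one ht.le ht1.le (by omega))
      have h3 : dg s ∈ degSet k s := Nat.sSup_mem ⟨1, one_mem_degSet s⟩ hb
      have h4 : ι k s - 1 ∈ Fil k X (dg s) := by
        rw [← pow_Mi (hN.trans h2)]
        exact h3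
      exact Fil_anti h2 h4
    · rw [not_bddAbove_iff] at hb
      obtain ⟨n, hn, hlt⟩ := hb N
      have h4 : ι k s - 1 ∈ Fil k X n := by
        rw [← pow_Mi (by omega)]
        exact hn
      exact Fil_anti hlt.le h4
  have hH : 1 - (Fintype.card X : ℝ) * t + ∑ s ∈ T, t ^ dg s ≤ 0 := by
    have h1 : ∑ s ∈ T, t ^ dg s = ∑ r ∈ T0, f r := by
      rw [hT, Finset.sum_map]; rfl
    have h2 : ∑ r ∈ T0, f r ≤ ∑' r, f r := hsum.sum_le_tsum _ fun r _ => pow_nonneg ht.le _
    rw [h1]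
    have h3 : 1 - (Fintype.card X : ℝ) * t + ∑' r, f r < 0 := hlt
    linarith
  have hgr := growth ht (Fintype.card X) (bdim k S) (by
      unfold bdim
      rw [J_zero]
      exact finrank_zero_of_subsingleton) T dg (fun s hs => (hin s hs).2) N hN
    (fun n hn => key_ineq S n T dg (fun s hs => (hin s hs).2) hm
      (fun s hs hsT => Fil_anti (by omega) (hrest s hs hsT))) hH
  have hmax : max (2 * N) C < bdim k S N := by
    by_contra hcon
    push Not at hcon
    have h1 : (bdim k S N : ℝ) ≤ (max (2 * N) C : ℕ) := by exact_mod_cast hcon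
    have h2 := mul_le_mul_of_nonneg_left h1 (pow_nonneg ht.le N)
    linarith
  exact ⟨lt_of_le_of_lt (le_max_right _ _) hmax, lt_of_le_of_lt (le_max_left _ _) hmax⟩

end gs

end Pool.H96.GS
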