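import Pool.Agent.Helper96.GS.Defs

/-!
# Large groups, actions with free fibres, and the cocycle gadget
-/

set_option autoImplicit false

namespace Pool.H96.GS

open Equiv

theorem Large.free {G : Type*} [Group G] (h : Large G) :
    ∃ f : FreeGroup (Fin 2) →* G, Function.Injective f := by
  obtain ⟨H, -, f, hf⟩ := h
  choose g hg using fun i : Fin 2 => hf (FreeGroup.of i)
  refine ⟨H.subtype.comp (FreeGroup.lift g), ?_⟩
  have h1 : f.comp (FreeGroup.lift g) = MonoidHom.id _ := by
    ext i
    simp [hg]
  have h2 : Function.Injective (FreeGroup.lift g) := by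
    intro a b hab
    have h3 := congrArg f hab
    have h4 : ∀ c, f (FreeGroup.lift g c) = c := fun c => DFunLike.congr_fun h1 c
    rwa [h4, h4] at h3
  exact H.subtype_injective.comp h2

theorem large_of_action {G B : Type*} [Group G] [Finite B]
    (Act : G →* Perm (B × FreeGroup (Fin 2)))
    (heq : ∀ g b u v, Act g (b, u * v) = ((Act g (b, u)).1, (Act g (b, u)).2 * v))
    (b0 : B) (hs : ∀ i : Fin 2, ∃ g, Act g (b0, 1) = (b0, FreeGroup.of i)) : Large G := by
  have key : ∀ g u, Act g (b0, u) = ((Act g (b0, 1)).1, (Act g (b0, 1)).2 * u) := by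
    intro g u
    have := heq g b0 1 u
    rwa [one_mul] at this
  let H : Subgroup G :=
    { carrier := {g | (Act g (b0, 1)).1 = b0}
      one_mem' := by simp
      mul_mem' := by
        intro g h hg hh
        simp only [Set.mem_ofPred_eq, map_mul, Perm.mul_apply] at hg hh ⊢
        have h1 : Act h (b0, 1) = (b0, (Act h (b0, 1)).2) := Prod.ext hh rfl
        rw [h1, key, hg]
      inv_mem' := by
        intro g hg
        simp only [Set.mem_ofPred_eq] at hg ⊢
        have h1 : Act g (b0, 1) = (b0, (Act g (b0, 1)).2) := Prod.ext hg rfl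
        have h2 : Act g⁻¹ (b0, (Act g (b0, 1)).2) = (b0, 1) := by
          rw [← h1, ← Perm.mul_apply, ← map_mul, inv_mul_cancel, map_one, Perm.one_apply]
        rw [key] at h2
        exact congrArg Prod.fst h2 }
  have hH : ∀ g, g ∈ H ↔ (Act g (b0, 1)).1 = b0 := fun g => Iff.rfl
  have hfin : Finite (G ⧸ H) := by
    let F : G ⧸ H → B := Quotient.lift (fun g => (Act g (b0, 1)).1) (by
      intro a b hab
      have hab' : a⁻¹ * b ∈ H := QuotientGroup.leftRel_apply.mp hab
      rw [hH] at hab'
      have h1 : Act b (b0, 1) = Act a (Act (a⁻¹ * b) (b0, 1)) := by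
        rw [← Perm.mul_apply, ← map_mul, mul_inv_cancel_left]
      have h2 : Act (a⁻¹ * b) (b0, 1) = (b0, (Act (a⁻¹ * b) (b0, 1)).2) := Prod.ext hab' rfl
      show (Act a (b0, 1)).1 = (Act b (b0, 1)).1
      rw [h1, h2, key a (Act (a⁻¹ * b) (b0, 1)).2])
    refine Finite.of_injective F ?_
    intro a b
    induction a using QuotientGroup.induction_on with
    | H a =>
      induction b using QuotientGroup.induction_on with
      | H b =>
        intro hab
        have hab' : (Act a (b0, 1)).1 = (Act b (b0, 1)).1 := hab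
        refine QuotientGroup.eq.mpr ?_
        rw [hH]
        have h1 : Act a (Act (a⁻¹ * b) (b0, 1)) = Act b (b0, 1) := by
          rw [← Perm.mul_apply, ← map_mul, mul_inv_cancel_left]
        have h2 : Act a (b0, (Act a (b0, 1)).2⁻¹ * (Act b (b0, 1)).2) = Act b (b0, 1) := by
          rw [key, hab', mul_inv_cancel_left]
        have h3 := (Act a).injective (h1.trans h2.symm)
        rw [h3]
  refine ⟨H, Subgroup.finiteIndex_of_finite_quotient, ?_⟩
  let f : H →* FreeGroup (Fin 2) :=
    { toFun := fun g => (Act g.1 (b0, 1)).2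
      map_one' := by simp
      map_mul' := by
        intro g h
        have hh := (hH h.1).1 h.2
        have h1 : Act h.1 (b0, 1) = (b0, (Act h.1 (b0, 1)).2) := Prod.ext hh rfl
        simp only [Subgroup.coe_mul, map_mul, Perm.mul_apply]
        rw [h1, key] }
  refine ⟨f, ?_⟩
  have hr : f.range = ⊤ := by
    rw [eq_top_iff]
    have hcl : Subgroup.closure (Set.range (FreeGroup.of : Fin 2 → FreeGroup (Fin 2))) = ⊤ :=
      FreeGroup.closure_range_of _
    rw [← hcl, Subgroup.closure_le]
    rintro _ ⟨i, rfl⟩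
    obtain ⟨g, hg⟩ := hs i
    refine ⟨⟨g, (hH g).2 (by rw [hg])⟩, ?_⟩
    show (Act g (b0, 1)).2 = _
    rw [hg]
  exact MonoidHom.range_eq_top.mp hr

section act

variable {X P Ω : Type*} [Group P] (q : FreeGroup X →* P)

/-- one letter: translate the base point, act in the fibre. -/
def genPerm (T : P → Perm Ω) (s : P) : Perm (P × Ω) where
  toFun a := (s * a.1, T a.1 a.2)
  invFun a := (s⁻¹ * a.1, (T (s⁻¹ * a.1)).symm a.2)
  left_inv := by rintro ⟨g, ω⟩; simp
  right_inv := by rintro ⟨g, ω⟩; simp

/-- the action of the free group given by fibre labels `T`. -/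
def act (T : X → P → Perm Ω) : FreeGroup X →* Perm (P × Ω) :=
  FreeGroup.lift fun x => genPerm (T x) (q (FreeGroup.of x))

variable {q} {T : X → P → Perm Ω}

theorem act_of (x : X) (g : P) (ω : Ω) :
    act q T (FreeGroup.of x) (g, ω) = (q (FreeGroup.of x) * g, T x g ω) := by
  simp [act, genPerm]

theorem act_of_inv (x : X) (g : P) (ω : Ω) :
    act q T (FreeGroup.of x)⁻¹ (g, ω) =
      ((q (FreeGroup.of x))⁻¹ * g, (T x ((q (FreeGroup.of x))⁻¹ * g)).symm ω) := by
  rw [map_inv, Perm.inv_def, Equiv.symm_apply_eq, act_of]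
  simp

theorem act_fst (w : FreeGroup X) (a : P × Ω) : (act q T w a).1 = q w * a.1 := by
  induction w using FreeGroup.induction_on generalizing a with
  | C1 => simp
  | of x => rw [← Prod.mk.eta (p := a), act_of]
  | inv_of x _ => rw [← Prod.mk.eta (p := a), act_of_inv, map_inv]
  | mul x y hx hy => rw [map_mul, Perm.mul_apply, hx, hy, map_mul, mul_assoc]

/-- a property of fibre maps that is closed under composition and inverse and holds for all
labels holds for all words. -/
theorem act_snd_ind (Q : (Ω → Ω) → Prop) (h1 : Q id)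
    (hT : ∀ x g, Q (T x g)) (hTi : ∀ x g, Q (T x g).symm)
    (hm : ∀ u v, Q u → Q v → Q (u ∘ v)) (w : FreeGroup X) (g : P) :
    Q (fun ω => (act q T w (g, ω)).2) := by
  induction w using FreeGroup.induction_on generalizing g with
  | C1 =>
    have : (fun ω => (act q T 1 (g, ω)).2) = id := by funext ω; simp
    rw [this]; exact h1
  | of x => simpa [act_of] using hT x g
  | inv_of x _ =>
    have : (fun ω => (act q T (FreeGroup.of x)⁻¹ (g, ω)).2) =
        (T x ((q (FreeGroup.of x))⁻¹ * g)).symm := by
      funext ω; rw [act_of_inv]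
    rw [this]; exact hTi _ _
  | mul x y hx hy =>
    have : (fun ω => (act q T (x * y) (g, ω)).2) =
        (fun ω => (act q T x (q y * g, ω)).2) ∘ (fun ω => (act q T y (g, ω)).2) := by
      funext ω
      rw [map_mul, Perm.mul_apply, Function.comp_apply]
      congr 2
      exact Prod.ext (act_fst y (g, ω)) rfl
    rw [this]
    exact hm _ _ (hx _) (hy _)

theorem act_mul_snd (w v : FreeGroup X) (g : P) (ω : Ω) :
    (act q T (w * v) (g, ω)).2 = (act q T w (q v * g, (act q T v (g, ω)).2)).2 := by
  rw [map_mul, Perm.mul_apply]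
  congr 2
  exact Prod.ext (act_fst v (g, ω)) rfl

end act

end Pool.H96.GS
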