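import Pool.Agent.Helper96.GS.Far

/-!
# Largeness from a finite quotient with vanishing counts
-/

set_option autoImplicit false

namespace Pool.H96.GS

open Equiv Classical

section target

variable (p : ℕ)

/-- the fibre: `p` sheets, each a copy of the free group of rank two. -/
abbrev Om := ZMod p × FreeGroup (Fin 2)

/-- shift of the sheets. -/
def sh : Multiplicative (ZMod p) →* Perm (Om p) where
  toFun c := ⟨fun a => (a.1 + c.toAdd, a.2), fun a => (a.1 - c.toAdd, a.2),
    fun a => by simp, fun a => by simp⟩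
  map_one' := by ext a <;> simp
  map_mul' := by
    intro c d
    ext a
    · simp [add_assoc, add_comm (Multiplicative.toAdd d)]
    · simp

/-- left multiplication by `u` on the sheet `0`. -/
noncomputable def tw (u : FreeGroup (Fin 2)) : Perm (Om p) where
  toFun a := (a.1, if a.1 = 0 then u * a.2 else a.2)
  invFun a := (a.1, if a.1 = 0 then u⁻¹ * a.2 else a.2)
  left_inv a := by
    obtain ⟨k, b⟩ := a
    by_cases h : k = 0 <;> simp [h]
  right_inv a := by
    obtain ⟨k, b⟩ := a
    by_cases h : k = 0 <;> simp [h]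

/-- the three twists. -/
def u3 : Fin 3 → FreeGroup (Fin 2) := ![1, FreeGroup.of 0, FreeGroup.of 1]

/-- three conjugates of the shift. -/
noncomputable def rho (i : Fin 3) : Multiplicative (ZMod p) →* Perm (Om p) :=
  (MulAut.conj (tw p (u3 i))).toMonoidHom.comp (sh p)

theorem rho_apply (i : Fin 3) (c : Multiplicative (ZMod p)) (a : Om p) :
    rho p i c a = tw p (u3 i) (sh p c ((tw p (u3 i)).symm a)) := rfl

variable {p}

theorem rho_neg_one [Fact p.Prime] (i : Fin 3) (b : FreeGroup (Fin 2)) :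
    rho p i (Multiplicative.ofAdd 1) (-1, b) = (0, u3 i * b) := by
  rw [rho_apply]
  have h1 : (-1 : ZMod p) ≠ 0 := neg_ne_zero.mpr one_ne_zero
  have h2 : (tw p (u3 i)).symm (-1, b) = (-1, b) := by
    show ((-1 : ZMod p), if (-1 : ZMod p) = 0 then (u3 i)⁻¹ * b else b) = _
    rw [if_neg h1]
  rw [h2]
  have h3 : sh p (Multiplicative.ofAdd 1) (-1, b) = (0, b) := by
    show ((-1 : ZMod p) + 1, b) = _
    rw [neg_add_cancel]
  rw [h3]
  show ((0 : ZMod p), if (0 : ZMod p) = 0 then u3 i * b else b) = _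
  rw [if_pos rfl]

/-- equivariance of fibre maps under right multiplication. -/
def Eqv (φ : Om p → Om p) : Prop :=
  ∀ k u v, φ (k, u * v) = ((φ (k, u)).1, (φ (k, u)).2 * v)

theorem Eqv.id : Eqv (p := p) (id) := fun _ _ _ => rfl

theorem Eqv.comp {φ ψ : Om p → Om p} (hφ : Eqv φ) (hψ : Eqv ψ) : Eqv (φ ∘ ψ) := by
  intro k u v
  simp only [Function.comp_apply]
  rw [hψ, hφ]

theorem Eqv.symm {σ : Perm (Om p)} (h : Eqv σ) : Eqv σ.symm := by
  intro k u v
  rw [Equiv.symm_apply_eq]
  have h1 := h (σ.symm (k, u)).1 (σ.symm (k, u)).2 v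
  rw [h1, Prod.mk.eta, Equiv.apply_symm_apply]

theorem Eqv_sh (c : Multiplicative (ZMod p)) : Eqv (sh p c) := fun _ _ _ => rfl

theorem Eqv_tw (u : FreeGroup (Fin 2)) : Eqv (tw p u) := by
  intro k v w
  show (k, if k = 0 then u * (v * w) else v * w) = (k, (if k = 0 then u * v else v) * w)
  split_ifs
  · rw [mul_assoc]
  · rfl

theorem Eqv_rho (i : Fin 3) (c : Multiplicative (ZMod p)) : Eqv (rho p i c) :=
  (Eqv_tw _).comp ((Eqv_sh c).comp (Eqv_tw _).symm)

theorem Eqv_labT {X P : Type*} {j : X} {e : Fin 3 → P} (x : X) (g : P) :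
    Eqv (labT j (rho p) e x g) := by
  unfold labT
  split_ifs
  · exact Eqv_rho _ _
  · exact Eqv.id

end target

theorem core {X P : Type*} [Group P] [Fintype P] {p : ℕ} [Fact p.Prime] {j : X}
    {q : FreeGroup X →* P} (hq : Function.Surjective q) {R : Set (FreeGroup X)}
    (hR : ∀ r ∈ R, r ∈ Z p j q) (L : Finset (List (X × Bool)))
    (hL : ∀ r ∈ R, ∀ u, u <:+ r.toWord → u ∈ L) {y : FreeGroup X}
    (hy : y ∈ Subgroup.closure (FreeGroup.of '' {x | x ≠ j})) (hy1 : q y ≠ 1)
    (hcard : 4 + 4 * L.card ^ 2 < Fintype.card P) :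
    Large (FreeGroup X ⧸ Subgroup.normalClosure R) := by
  let near : P → P → Prop := fun h h' =>
    ∃ u ∈ L, ∃ u' ∈ L, q (FreeGroup.mk u') * (q (FreeGroup.mk u))⁻¹ * h = h'
  have hsymm : ∀ h h', near h h' → near h' h := by
    rintro h h' ⟨u, hu, u', hu', rfl⟩
    exact ⟨u', hu', u, hu, by group⟩
  have hB : ∀ h, (Finset.univ.filter fun h' => near h h').card ≤ L.card ^ 2 := by
    intro h
    have hsub : (Finset.univ.filter fun h' => near h h') ⊆
        (L ×ˢ L).image fun a => q (FreeGroup.mk a.2) * (q (FreeGroup.mk a.1))⁻¹ * h := by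
      intro h' hh'
      rw [Finset.mem_filter] at hh'
      obtain ⟨-, u, hu, u', hu', h1⟩ := hh'
      exact Finset.mem_image.mpr ⟨(u, u'), Finset.mem_product.mpr ⟨hu, hu'⟩, h1⟩
    refine (Finset.card_le_card hsub).trans (Finset.card_image_le.trans ?_)
    rw [Finset.card_product, sq]
  have hrank := rank_phi (p := p) hq hy hy1
  obtain ⟨e, hfar, hli⟩ := exists_far (k := ZMod p) (phi p j q) near hsymm (L.card ^ 2)
    (fun h => by convert hB h) (by omega) 3 le_rfl
  have he : Function.Injective e := by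
    intro a b hab
    exact hli.injective (by simp only [hab])
  have hact : ∀ r ∈ R, act q (labT j (rho p) e) r = 1 := by
    intro r hr
    refine act_eq_one he (hR r hr) fun g => ?_
    by_contra hcon
    push Not at hcon
    obtain ⟨i1, -, u, hu, h1⟩ := hcon 0
    obtain ⟨i2, hne, u', hu', h2⟩ := hcon i1
    refine hfar i1 i2 (Ne.symm hne) ⟨u, hL r hr u hu, u', hL r hr u' hu', ?_⟩
    rw [← h1, ← h2]
    group
  have hker : Subgroup.normalClosure R ≤ (act q (labT j (rho p) e)).ker :=
    Subgroup.normalClosure_le_normal fun r hr => hact r hr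
  let A0 : FreeGroup X ⧸ Subgroup.normalClosure R →* Perm (P × Om p) :=
    QuotientGroup.lift _ (act q (labT j (rho p) e)) hker
  let E : P × Om p ≃ (P × ZMod p) × FreeGroup (Fin 2) := (Equiv.prodAssoc _ _ _).symm
  let A1 : FreeGroup X ⧸ Subgroup.normalClosure R →* Perm ((P × ZMod p) × FreeGroup (Fin 2)) :=
    E.permCongrHom.toMonoidHom.comp A0
  have hA1 : ∀ (w : FreeGroup X) b u, A1 (QuotientGroup.mk w) (b, u) =
      E (act q (labT j (rho p) e) w (b.1, (b.2, u))) := fun w b u => rfl
  have hEqv : ∀ (w : FreeGroup X) (g : P),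
      Eqv (fun ω => (act q (labT j (rho p) e) w (g, ω)).2) := fun w g =>
    act_snd_ind (q := q) (T := labT j (rho p) e) Eqv Eqv.id (fun x g => Eqv_labT x g)
      (fun x g => (Eqv_labT x g).symm) (fun u v hu hv => hu.comp hv) w g
  have : NeZero p := ⟨(Fact.out : p.Prime).ne_zero⟩
  refine large_of_action A1 ?_ (1, 0) ?_
  · intro g b u v
    induction g using QuotientGroup.induction_on with
    | H w =>
      rw [hA1, hA1]
      have h1 := hEqv w b.1 b.2 u v
      have h2 : act q (labT j (rho p) e) w (b.1, (b.2, u * v)) =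
          (q w * b.1, (act q (labT j (rho p) e) w (b.1, (b.2, u * v))).2) :=
        Prod.ext (act_fst _ _) rfl
      have h3 : act q (labT j (rho p) e) w (b.1, (b.2, u)) =
          (q w * b.1, (act q (labT j (rho p) e) w (b.1, (b.2, u))).2) :=
        Prod.ext (act_fst _ _) rfl
      rw [h2, h3]
      simp only at h1
      rw [h1]
      rfl
  · intro i
    obtain ⟨k0, hk0⟩ := exists_loop (ρ := rho p) hq he hli 0
    obtain ⟨k1, hk1⟩ := exists_loop (ρ := rho p) hq he hli i.succ
    refine ⟨QuotientGroup.mk (k1 * k0⁻¹), ?_⟩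
    rw [hA1]
    have h0 : act q (labT j (rho p) e) k0⁻¹ (1, ((0 : ZMod p), (1 : FreeGroup (Fin 2)))) =
        (1, (-1, 1)) := by
      rw [map_inv, Perm.inv_def, Equiv.symm_apply_eq, hk0, rho_neg_one]
      simp [u3]
    show E (act q (labT j (rho p) e) (k1 * k0⁻¹) (1, (0, 1))) = _
    rw [map_mul, Perm.mul_apply, h0, hk1, rho_neg_one, mul_one]
    fin_cases i <;> rfl

end Pool.H96.GS
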