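import Pool.Agent.Helper96.GS.Far2
import Pool.Agent.Helper96.GS.Core

/-!
# The core statement for a splitting of the alphabet in two blocks
-/

set_option autoImplicit false

namespace Pool.H96.GS.Bk

open Equiv Classical Module

theorem Eqv_gau {P : Type*} {p : ℕ} {e : Fin 3 → P} (g : P) :
    Eqv (gau (rho p) e g) := by
  unfold gau
  split_ifs
  · exact Eqv_rho _ _
  · exact Eqv.id

theorem Eqv_labT {X P : Type*} [Group P] {p : ℕ} {B : Set X} {q : FreeGroup X →* P}
    {e : Fin 3 → P} (x : X) (g : P) :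
    Eqv (labT B q (rho p) e x g) := by
  unfold labT
  split_ifs
  · exact (Eqv_gau (p := p) (e := e) _).comp (Eqv_gau (p := p) (e := e) g).symm
  · exact Eqv.id

theorem core {X P : Type*} [Group P] [Fintype P] {p : ℕ} [Fact p.Prime] {B : Set X}
    {q : FreeGroup X →* P} (hq : Function.Surjective q) {R : Set (FreeGroup X)}
    (hR : ∀ r ∈ R, r ∈ Z p B q) (L : Finset (List (X × Bool)))
    (hL : ∀ r ∈ R, ∀ u, u <:+ r.toWord → u ∈ L)
    (hA : 2 ≤ Nat.card ((Subgroup.closure (FreeGroup.of '' Bᶜ)).map q))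
    (hB' : 2 ≤ Nat.card ((Subgroup.closure (FreeGroup.of '' B)).map q))
    (hAB : 5 ≤ Nat.card ((Subgroup.closure (FreeGroup.of '' Bᶜ)).map q) +
      Nat.card ((Subgroup.closure (FreeGroup.of '' B)).map q))
    (hcard : 12 + 12 * L.card ^ 2 < Fintype.card P) :
    Large (FreeGroup X ⧸ Subgroup.normalClosure R) := by
  let near : P → P → Prop := fun h h' =>
    ∃ u ∈ L, ∃ u' ∈ L, q (FreeGroup.mk u') * (q (FreeGroup.mk u))⁻¹ * h = h'
  have hsymm : ∀ h h', near h h' → near h' h := by
    rintro h h' ⟨u, hu, u', hu', rfl⟩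
    exact ⟨u', hu', u, hu, by group⟩
  have hB : ∀ h, (Finset.univ.filter fun h' => near h h').card ≤ L.card ^ 2 := by
    intro h
    have hsub : (Finset.univ.filter fun h' => near h h') ⊆
        (L ×ˢ L).image fun a => q (FreeGroup.mk a.2) * (q (FreeGroup.mk a.1))⁻¹ * h := by
      intro h' hh'
      rw [Finset.mem_filter] at hh'
      obtain ⟨-, u, hu, u', hu', h1⟩ := hh'
      exact Finset.mem_image.mpr ⟨(u, u'), Finset.mem_product.mpr ⟨hu, hu'⟩, h1⟩
    refine (Finset.card_le_card hsub).trans (Finset.card_image_le.trans ?_)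
    rw [Finset.card_product, sq]
  have hrank := rank_phi (p := p) hq hA hB' hAB
  obtain ⟨e, hfar, hli⟩ := exists_far (k := ZMod p) (phi p B q) near hsymm (L.card ^ 2)
    (fun h => by convert hB h) (by omega) 3 le_rfl
  have he : Function.Injective e := by
    intro a b hab
    exact hli.injective (by simp only [hab])
  have hact : ∀ r ∈ R, act q (labT B q (rho p) e) r = 1 := by
    intro r hr
    refine act_eq_one he (hR r hr) fun g => ?_
    by_contra hcon
    push Not at hcon
    obtain ⟨i1, -, u, hu, h1⟩ := hcon 0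
    obtain ⟨i2, hne, u', hu', h2⟩ := hcon i1
    refine hfar i1 i2 (Ne.symm hne) ⟨u, hL r hr u hu, u', hL r hr u' hu', ?_⟩
    rw [← h1, ← h2]
    group
  have hker : Subgroup.normalClosure R ≤ (act q (labT B q (rho p) e)).ker :=
    Subgroup.normalClosure_le_normal fun r hr => hact r hr
  let A0 : FreeGroup X ⧸ Subgroup.normalClosure R →* Perm (P × Om p) :=
    QuotientGroup.lift _ (act q (labT B q (rho p) e)) hker
  let E : P × Om p ≃ (P × ZMod p) × FreeGroup (Fin 2) := (Equiv.prodAssoc _ _ _).symm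
  let A1 : FreeGroup X ⧸ Subgroup.normalClosure R →* Perm ((P × ZMod p) × FreeGroup (Fin 2)) :=
    E.permCongrHom.toMonoidHom.comp A0
  have hA1 : ∀ (w : FreeGroup X) b u, A1 (QuotientGroup.mk w) (b, u) =
      E (act q (labT B q (rho p) e) w (b.1, (b.2, u))) := fun w b u => rfl
  have hEqv : ∀ (w : FreeGroup X) (g : P),
      Eqv (fun ω => (act q (labT B q (rho p) e) w (g, ω)).2) := fun w g =>
    act_snd_ind (q := q) (T := labT B q (rho p) e) Eqv Eqv.id (fun x g => Eqv_labT x g)
      (fun x g => (Eqv_labT x g).symm) (fun u v hu hv => hu.comp hv) w g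
  have : NeZero p := ⟨(Fact.out : p.Prime).ne_zero⟩
  refine large_of_action A1 ?_ (1, 0) ?_
  · intro g b u v
    induction g using QuotientGroup.induction_on with
    | H w =>
      rw [hA1, hA1]
      have h1 := hEqv w b.1 b.2 u v
      have h2 : act q (labT B q (rho p) e) w (b.1, (b.2, u * v)) =
          (q w * b.1, (act q (labT B q (rho p) e) w (b.1, (b.2, u * v))).2) :=
        Prod.ext (act_fst _ _) rfl
      have h3 : act q (labT B q (rho p) e) w (b.1, (b.2, u)) =
          (q w * b.1, (act q (labT B q (rho p) e) w (b.1, (b.2, u))).2) :=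
        Prod.ext (act_fst _ _) rfl
      rw [h2, h3]
      simp only at h1
      rw [h1]
      rfl
  · intro i
    obtain ⟨k0, hk0⟩ := exists_loop (ρ := rho p) hq he hli 0
    obtain ⟨k1, hk1⟩ := exists_loop (ρ := rho p) hq he hli i.succ
    refine ⟨QuotientGroup.mk (k1 * k0⁻¹), ?_⟩
    rw [hA1]
    have h0 : act q (labT B q (rho p) e) k0⁻¹ (1, ((0 : ZMod p), (1 : FreeGroup (Fin 2)))) =
        (1, (-1, 1)) := by
      rw [map_inv, Perm.inv_def, Equiv.symm_apply_eq, hk0, rho_neg_one]
      simp [u3]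
    show E (act q (labT B q (rho p) e) (k1 * k0⁻¹) (1, (0, 1))) = _
    rw [map_mul, Perm.mul_apply, h0, hk1, rho_neg_one, mul_one]
    fin_cases i <;> rfl

end Pool.H96.GS.Bk
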