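import Pool.Agent.Helper96.GS.Count

/-!
# Counting functionals for a splitting of the alphabet in two blocks
-/

set_option autoImplicit false

namespace Pool.H96.GS.Bk

open Equiv Classical

section cnt

variable {X P : Type*} [Group P] (p : ℕ) (B : Set X) (q : FreeGroup X →* P)

noncomputable def cntT (x : X) (g : P) : Perm (P → ZMod p) :=
  if x ∈ B then Equiv.addRight (Pi.single (q (FreeGroup.of x) * g) 1 - Pi.single g 1) else 1

/-- `cnt w g h`: signed number (mod `p`) of passages of the path `w` that starts at `g` through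
the vertex `h` from the block `B` to the other block. -/
noncomputable def cnt (w : FreeGroup X) (g : P) : P → ZMod p := (act q (cntT p B q) w (g, 0)).2

variable {p B q}

theorem cnt_shift (w : FreeGroup X) (g : P) (v : P → ZMod p) :
    (act q (cntT p B q) w (g, v)).2 = v + cnt p B q w g := by
  have := act_snd_ind (q := q) (T := cntT p B q)
    (fun φ => ∀ v, φ v = v + φ 0) (by simp) ?_ ?_ ?_ w g v
  · exact this
  · intro x h v
    unfold cntT
    split_ifs <;> simp
  · intro x h v
    unfold cntT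
    split_ifs
    · simp only [Equiv.addRight_symm_apply]; abel
    · simp only [Perm.one_def, Equiv.refl_symm, Equiv.refl_apply, add_zero]
  · intro a b ha hb v
    simp only [Function.comp_apply]
    rw [ha (b v), ha (b 0), hb v, add_assoc]

theorem cnt_mul (w v : FreeGroup X) (g : P) :
    cnt p B q (w * v) g = cnt p B q v g + cnt p B q w (q v * g) := by
  unfold cnt
  rw [act_mul_snd, cnt_shift]
  rfl

theorem cnt_one (g : P) : cnt p B q 1 g = 0 := by simp [cnt]

theorem cnt_of (x : X) (g : P) :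
    cnt p B q (FreeGroup.of x) g =
      if x ∈ B then Pi.single (q (FreeGroup.of x) * g) 1 - Pi.single g 1 else 0 := by
  unfold cnt
  rw [act_of]
  unfold cntT
  split_ifs <;> simp

theorem cnt_inv (w : FreeGroup X) (g : P) :
    cnt p B q w⁻¹ g = - cnt p B q w (q w⁻¹ * g) := by
  have h := cnt_mul (p := p) (B := B) (q := q) w w⁻¹ g
  rw [mul_inv_cancel, cnt_one] at h
  exact eq_neg_of_add_eq_zero_left h.symm

variable (p B q) in
/-- words trivial in `P` whose counts vanish. -/
noncomputable def Z : Subgroup (FreeGroup X) where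
  carrier := {r | q r = 1 ∧ ∀ g, cnt p B q r g = 0}
  one_mem' := ⟨map_one q, fun g => cnt_one g⟩
  mul_mem' := by
    rintro a b ⟨ha, ha'⟩ ⟨hb, hb'⟩
    refine ⟨by rw [map_mul, ha, hb, one_mul], fun g => ?_⟩
    rw [cnt_mul, hb', ha', add_zero]
  inv_mem' := by
    rintro a ⟨ha, ha'⟩
    refine ⟨by rw [map_inv, ha, inv_one], fun g => ?_⟩
    rw [cnt_inv, ha', neg_zero]

theorem mem_Z {r : FreeGroup X} : r ∈ Z p B q ↔ q r = 1 ∧ ∀ g, cnt p B q r g = 0 := Iff.rfl

instance Z_normal : (Z p B q).Normal := by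
  constructor
  rintro r ⟨hr, hr'⟩ w
  refine ⟨by simp [hr], fun g => ?_⟩
  have h : cnt p B q (w * w⁻¹) g = 0 := by rw [mul_inv_cancel, cnt_one]
  rw [cnt_mul] at h
  rw [mul_assoc, cnt_mul, cnt_mul, hr', add_zero, map_mul, hr, one_mul]
  exact h

theorem cnt_mul_ker {a b : FreeGroup X} (hb : q b = 1) (g : P) :
    cnt p B q (a * b) g = cnt p B q a g + cnt p B q b g := by
  rw [cnt_mul, hb, one_mul, add_comm]

theorem cnt_inv_ker {a : FreeGroup X} (ha : q a = 1) (g : P) :
    cnt p B q a⁻¹ g = - cnt p B q a g := by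
  rw [cnt_inv, map_inv, ha, inv_one, one_mul]

theorem cnt_pow_ker {a : FreeGroup X} (ha : q a = 1) (g : P) (n : ℕ) :
    cnt p B q (a ^ n) g = n • cnt p B q a g := by
  induction n with
  | zero => simp [cnt_one]
  | succ n ih => rw [pow_succ, cnt_mul_ker ha, ih, succ_nsmul]

theorem comm_mem_Z {a b : FreeGroup X} (ha : q a = 1) (hb : q b = 1) :
    a * b * a⁻¹ * b⁻¹ ∈ Z p B q := by
  refine ⟨by simp [ha, hb], fun g => ?_⟩
  have ha' : q a⁻¹ = 1 := by simp [ha]
  have hb' : q b⁻¹ = 1 := by simp [hb]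
  rw [cnt_mul_ker hb', cnt_mul_ker ha', cnt_mul_ker hb, cnt_inv_ker ha, cnt_inv_ker hb]
  abel

theorem pow_mem_Z {a : FreeGroup X} (ha : q a = 1) : a ^ p ∈ Z p B q := by
  refine ⟨by simp [ha], fun g => ?_⟩
  rw [cnt_pow_ker ha]
  funext h
  simp

theorem cnt_of_mem_A {a : FreeGroup X}
    (ha : a ∈ Subgroup.closure (FreeGroup.of '' Bᶜ)) (g : P) : cnt p B q a g = 0 := by
  induction ha using Subgroup.closure_induction generalizing g with
  | mem x hx =>
    obtain ⟨x, hx, rfl⟩ := hx
    rw [cnt_of, if_neg hx]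
  | one => exact cnt_one g
  | mul x y _ _ hx hy => rw [cnt_mul, hx, hy, add_zero]
  | inv x _ hx => rw [cnt_inv, hx, neg_zero]

theorem cnt_of_mem_B {a : FreeGroup X}
    (ha : a ∈ Subgroup.closure (FreeGroup.of '' B)) (g : P) :
    cnt p B q a g = Pi.single (q a * g) 1 - Pi.single g 1 := by
  induction ha using Subgroup.closure_induction generalizing g with
  | mem x hx =>
    obtain ⟨x, hx, rfl⟩ := hx
    rw [cnt_of, if_pos hx]
  | one => rw [cnt_one, map_one, one_mul, sub_self]
  | mul x y _ _ hx hy => rw [cnt_mul, hx, hy, map_mul, mul_assoc]; abel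
  | inv x _ hx => rw [cnt_inv, hx, map_inv, mul_inv_cancel_left]; abel

theorem le_Z {N : Subgroup (FreeGroup X)} (hN : ∀ n ∈ N, q n = 1) :
    Subgroup.normalClosure ((N ⊓ Subgroup.closure (FreeGroup.of '' Bᶜ) :
        Subgroup (FreeGroup X)) : Set (FreeGroup X)) ⊔
    (Subgroup.normalClosure ((N ⊓ Subgroup.closure (FreeGroup.of '' B) :
        Subgroup (FreeGroup X)) : Set (FreeGroup X)) ⊔
      (⁅N, N⁆ ⊔ Subgroup.closure {x | ∃ n ∈ N, x = n ^ p})) ≤ Z p B q := by
  refine sup_le ?_ (sup_le ?_ (sup_le ?_ ?_))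
  · refine Subgroup.normalClosure_le_normal ?_
    rintro a ⟨ha, ha'⟩
    exact ⟨hN a ha, fun g => cnt_of_mem_A ha' g⟩
  · refine Subgroup.normalClosure_le_normal ?_
    rintro a ⟨ha, ha'⟩
    refine ⟨hN a ha, fun g => ?_⟩
    rw [cnt_of_mem_B ha', hN a ha, one_mul, sub_self]
  · rw [Subgroup.commutator_le]
    intro a ha b hb
    exact comm_mem_Z (hN a ha) (hN b hb)
  · rw [Subgroup.closure_le]
    rintro _ ⟨n, hn, rfl⟩
    exact pow_mem_Z (hN n hn)

end cnt

section path

variable {X P Ω : Type*} [Group P] {p : ℕ} (B : Set X) (q : FreeGroup X →* P)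
  (ρ : Fin 3 → (Multiplicative (ZMod p) →* Perm Ω)) (e : Fin 3 → P)

/-- the gauge: the generator of `ρ i` at the vertex `e i`, trivial elsewhere. -/
noncomputable def gau (g : P) : Perm Ω :=
  if h : ∃ i, e i = g then ρ h.choose (Multiplicative.ofAdd 1) else 1

/-- labels: the letters of `B` act by the difference of the gauge. -/
noncomputable def labT (x : X) (g : P) : Perm Ω :=
  if x ∈ B then gau ρ e (q (FreeGroup.of x) * g) * (gau ρ e g)⁻¹ else 1

variable {B ρ e q}

omit [Group P] in
theorem gau_e (he : Function.Injective e) (i : Fin 3) :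
    gau ρ e (e i) = ρ i (Multiplicative.ofAdd 1) := by
  have h : ∃ i', e i' = e i := ⟨i, rfl⟩
  unfold gau
  rw [dif_pos h]
  have := he h.choose_spec
  rw [this]

omit [Group P] in
theorem gau_ne {g : P} (hg : ∀ i, e i ≠ g) : gau ρ e g = 1 := by
  unfold gau
  rw [dif_neg (fun h => h.elim fun i hi => hg i hi)]

omit [Group P] in
theorem gau_path (he : Function.Injective e) {i0 : Fin 3} {v : P}
    (hv : ∀ i, i ≠ i0 → e i ≠ v) :
    gau ρ e v = ρ i0 (Multiplicative.ofAdd ((Pi.single v 1 : P → ZMod p) (e i0))) := by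
  by_cases h : e i0 = v
  · rw [← h, gau_e he, Pi.single_eq_same]
  · rw [gau_ne, Pi.single_eq_of_ne h]
    · simp
    · intro i
      by_cases hi : i = i0
      · rw [hi]; exact h
      · exact hv i hi

theorem act_path (he : Function.Injective e) (g : P) (i0 : Fin 3) (l : List (X × Bool))
    (hi : ∀ i, i ≠ i0 → ¬ OnPath q l g (e i)) (ω : Ω) :
    (act q (labT B q ρ e) (FreeGroup.mk l) (g, ω)).2 =
      ρ i0 (Multiplicative.ofAdd (cnt p B q (FreeGroup.mk l) g (e i0))) ω := by
  induction l with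
  | nil =>
    have h1 : FreeGroup.mk ([] : List (X × Bool)) = 1 := rfl
    rw [h1, map_one, cnt_one]
    simp
  | cons a l ih =>
    have hi' : ∀ i, i ≠ i0 → ¬ OnPath q l g (e i) := by
      rintro i hne ⟨u, hu, huq⟩
      exact hi i hne ⟨u, hu.trans (List.suffix_cons a l), huq⟩
    have ih' := ih hi'
    obtain ⟨x, b⟩ := a
    cases b with
    | true =>
      rw [mk_cons_true, act_mul_snd, ih', cnt_mul, act_of, cnt_of]
      have hon : OnPath q ((x, true) :: l) g (q (FreeGroup.mk l) * g) :=
        ⟨l, List.suffix_cons _ _, rfl⟩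
      have hon' : OnPath q ((x, true) :: l) g
          (q (FreeGroup.of x) * (q (FreeGroup.mk l) * g)) :=
        ⟨(x, true) :: l, List.suffix_refl _, by rw [mk_cons_true, map_mul, mul_assoc]⟩
      have h1 : ∀ i, i ≠ i0 → e i ≠ q (FreeGroup.mk l) * g := fun i hne h2 =>
        hi i hne (h2 ▸ hon)
      have h2 : ∀ i, i ≠ i0 → e i ≠ q (FreeGroup.of x) * (q (FreeGroup.mk l) * g) :=
        fun i hne h3 => hi i hne (h3 ▸ hon')
      by_cases hx : x ∈ B
      · rw [if_pos hx]
        unfold labT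
        rw [if_pos hx, gau_path he h1, gau_path he h2]
        simp only [Pi.add_apply, Pi.sub_apply]
        rw [← map_inv, ← map_mul, ← Perm.mul_apply, ← map_mul, ← ofAdd_neg, ← ofAdd_add,
          ← ofAdd_add]
        congr 3
        ring
      · rw [if_neg hx]
        unfold labT
        rw [if_neg hx]
        simp
    | false =>
      rw [mk_cons_false, act_mul_snd, ih', cnt_mul, act_of_inv, cnt_inv, cnt_of, map_inv]
      have hon : OnPath q ((x, false) :: l) g
          ((q (FreeGroup.of x))⁻¹ * (q (FreeGroup.mk l) * g)) :=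
        ⟨(x, false) :: l, List.suffix_refl _, by rw [mk_cons_false, map_mul, map_inv, mul_assoc]⟩
      have hon' : OnPath q ((x, false) :: l) g (q (FreeGroup.mk l) * g) :=
        ⟨l, List.suffix_cons _ _, rfl⟩
      have h1 : ∀ i, i ≠ i0 → e i ≠ (q (FreeGroup.of x))⁻¹ * (q (FreeGroup.mk l) * g) :=
        fun i hne h2 => hi i hne (h2 ▸ hon)
      have h2 : ∀ i, i ≠ i0 → e i ≠ q (FreeGroup.mk l) * g := fun i hne h2 =>
        hi i hne (h2 ▸ hon')
      by_cases hx : x ∈ B
      · rw [if_pos hx]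
        unfold labT
        rw [if_pos hx, mul_inv_cancel_left, gau_path he h1, gau_path he h2]
        simp only [Pi.add_apply, Pi.sub_apply, Pi.neg_apply]
        rw [← Perm.inv_def, ← map_inv, ← map_mul, ← map_inv, ← Perm.mul_apply, ← map_mul,
          ← ofAdd_neg, ← ofAdd_add, ← ofAdd_neg, ← ofAdd_add]
        congr 3
        ring
      · rw [if_neg hx]
        unfold labT
        rw [if_neg hx]
        simp [Perm.one_def]

/-- a word with vanishing counts that meets at most one of the three marked vertices acts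
trivially. -/
theorem act_eq_one (he : Function.Injective e) {r : FreeGroup X} (hr : r ∈ Z p B q)
    (hfar : ∀ g, ∃ i0, ∀ i, i ≠ i0 → ¬ OnPath q r.toWord g (e i)) :
    act q (labT B q ρ e) r = 1 := by
  ext a
  · obtain ⟨g, ω⟩ := a
    rw [act_fst, hr.1]; simp
  · obtain ⟨g, ω⟩ := a
    obtain ⟨i0, hi0⟩ := hfar g
    have h := act_path (p := p) (B := B) (ρ := ρ) he g i0 r.toWord hi0 ω
    rw [FreeGroup.mk_toWord, hr.2 g] at h
    rw [h]
    simp

end path

end Pool.H96.GS.Bk
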