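import Pool.Agent.Helper96.GS.Count

/-!
# Choice of three far apart edges whose counting functionals are independent
-/

set_option autoImplicit false

namespace Pool.H96.GS

open Equiv Classical Module

theorem exists_far {k P W : Type*} [Field k] [Fintype P] [AddCommGroup W] [Module k W]
    (φ : P → W) (near : P → P → Prop) (hsymm : ∀ h h', near h h' → near h' h) (B : ℕ)
    (hB : ∀ h, (Finset.univ.filter fun h' => near h h').card ≤ B)
    (hbig : 2 + 2 * B < finrank k (Submodule.span k (Set.range φ))) (s : ℕ) (hs : s ≤ 3) :
    ∃ e : Fin s → P, (∀ i i', i ≠ i' → ¬ near (e i) (e i')) ∧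
      LinearIndependent k (fun i => φ (e i)) := by
  induction s with
  | zero => exact ⟨Fin.elim0, fun i => i.elim0, linearIndependent_empty_type⟩
  | succ s ih =>
    obtain ⟨e, hfar, hli⟩ := ih (by omega)
    have hex : ∃ h, (∀ i, ¬ near (e i) h) ∧ φ h ∉ Submodule.span k (Set.range fun i => φ (e i)) := by
      by_contra hcon
      push Not at hcon
      let S : Finset P := Finset.univ.image e ∪
        Finset.univ.biUnion fun i : Fin s => Finset.univ.filter fun h' => near (e i) h'
      have hScard : (S.image φ).card ≤ 2 + 2 * B := by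
        calc (S.image φ).card ≤ S.card := Finset.card_image_le
          _ ≤ (Finset.univ.image e).card +
              (Finset.univ.biUnion fun i : Fin s =>
                Finset.univ.filter fun h' => near (e i) h').card := Finset.card_union_le _ _
          _ ≤ s + s * B := by
              refine add_le_add ?_ ?_
              · exact Finset.card_image_le.trans (by simp)
              · refine Finset.card_biUnion_le.trans ?_
                refine (Finset.sum_le_sum fun i _ => hB (e i)).trans ?_
                simp
          _ ≤ 2 + 2 * B := by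
              have : s ≤ 2 := by omega
              exact add_le_add this (Nat.mul_le_mul_right B this)
      have hsub : Submodule.span k (Set.range φ) ≤
          Submodule.span k ((S.image φ : Finset W) : Set W) := by
        rw [Submodule.span_le]
        rintro _ ⟨h, rfl⟩
        by_cases hn : ∀ i, ¬ near (e i) h
        · refine Submodule.span_mono ?_ (hcon h hn)
          rintro _ ⟨i, rfl⟩
          simp only [Finset.coe_image]
          exact ⟨e i, by simp [S], rfl⟩
        · push Not at hn
          obtain ⟨i, hi⟩ := hn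
          refine Submodule.subset_span ?_
          simp only [Finset.coe_image]
          refine ⟨h, ?_, rfl⟩
          simp only [S, Finset.coe_union, Set.mem_union, Finset.mem_coe, Finset.mem_biUnion,
            Finset.mem_filter, Finset.mem_univ, true_and]
          exact Or.inr ⟨i, hi⟩
      have h1 : finrank k (Submodule.span k (Set.range φ)) ≤
          finrank k (Submodule.span k ((S.image φ : Finset W) : Set W)) :=
        Submodule.finrank_mono hsub
      have h2 := finrank_span_finset_le_card (R := k) (S.image φ)
      rw [Set.finrank] at h2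
      omega
    obtain ⟨h, hh, hsp⟩ := hex
    refine ⟨Fin.cons h e, ?_, ?_⟩
    · intro i i' hne
      refine Fin.cases ?_ (fun i => ?_) i hne
      · intro hne
        revert hne
        refine Fin.cases (fun hne => absurd rfl hne) (fun i' _ => ?_) i'
        simp only [Fin.cons_zero, Fin.cons_succ]
        exact fun hn => hh i' (hsymm _ _ hn)
      · intro hne
        revert hne
        refine Fin.cases (fun _ => ?_) (fun i' hne => ?_) i'
        · simp only [Fin.cons_zero, Fin.cons_succ]
          exact hh i
        · simp only [Fin.cons_succ]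
          exact hfar i i' (fun hc => hne (by rw [hc]))
    · have h1 : (fun i => φ ((Fin.cons h e : Fin (s + 1) → P) i)) =
          Fin.cons (φ h) (fun i => φ (e i)) := by
        funext i
        refine Fin.cases ?_ (fun i => ?_) i <;> simp
      rw [h1, linearIndependent_finCons]
      exact ⟨hli, hsp⟩

section rank

variable {X P : Type*} [Group P] (p : ℕ) (j : X) (q : FreeGroup X →* P)

/-- the counting functional of the edge `(j, h)` on the kernel of `q`. -/
noncomputable def phi (h : P) : q.ker → ZMod p := fun k => cnt p j q k.1 1 h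

variable {p j q}

theorem finrank_invariant_le [Fact p.Prime] [Finite P] (y : P) (hy : y ≠ 1)
    (V : Submodule (ZMod p) (P → ZMod p)) (hV : ∀ f ∈ V, ∀ g, f (y * g) = f g) :
    2 * finrank (ZMod p) V ≤ Nat.card P := by
  have hinv : ∀ f ∈ V, ∀ z ∈ Subgroup.zpowers y, ∀ g, f (z * g) = f g := by
    intro f hf z hz g
    have hz' : z ∈ Subgroup.closure {y} := by rwa [← Subgroup.zpowers_eq_closure]
    induction hz' using Subgroup.closure_induction generalizing g with
    | mem x hx =>
      rw [Set.mem_singleton_iff.mp hx]
      exact hV f hf g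
    | one => rw [one_mul]
    | mul a b ha hb iha ihb =>
      rw [← Subgroup.zpowers_eq_closure] at ha hb
      rw [mul_assoc, iha ha, ihb hb]
    | inv a ha iha =>
      rw [← Subgroup.zpowers_eq_closure] at ha
      have := iha ha (a⁻¹ * g)
      rw [mul_inv_cancel_left] at this
      exact this.symm
  let T : V →ₗ[ZMod p] (P ⧸ Subgroup.zpowers y → ZMod p) :=
    { toFun := fun f c => f.1 (c.out)⁻¹
      map_add' := fun f g => rfl
      map_smul' := fun a f => rfl }
  have hT : Function.Injective T := by
    rw [← LinearMap.ker_eq_bot, LinearMap.ker_eq_bot']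
    intro f hf
    ext g
    have h1 : f.1 ((QuotientGroup.mk g⁻¹ : P ⧸ Subgroup.zpowers y).out)⁻¹ = 0 :=
      congrFun hf (QuotientGroup.mk g⁻¹)
    obtain ⟨z, hz⟩ := QuotientGroup.mk_out_eq_mul (Subgroup.zpowers y) g⁻¹
    rw [hz, mul_inv_rev, inv_inv] at h1
    have h2 := hinv f.1 f.2 (z : P)⁻¹ (inv_mem z.2) g
    show f.1 g = 0
    rw [← h2]
    exact h1
  have hfin := Fintype.ofFinite (P ⧸ Subgroup.zpowers y)
  have h1 : finrank (ZMod p) V ≤ Nat.card (P ⧸ Subgroup.zpowers y) := by
    have := LinearMap.finrank_le_finrank_of_injective hT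
    rwa [Module.finrank_pi, ← Nat.card_eq_fintype_card] at this
  have h2 := Subgroup.card_eq_card_quotient_mul_card_subgroup (Subgroup.zpowers y)
  have h3 : 2 ≤ Nat.card (Subgroup.zpowers y) := by
    by_contra hlt
    have h4 : Nat.card (Subgroup.zpowers y) = 1 := by
      have : 0 < Nat.card (Subgroup.zpowers y) := Nat.card_pos
      omega
    rw [Subgroup.card_eq_one, Subgroup.zpowers_eq_bot] at h4
    exact hy h4
  rw [h2]
  calc 2 * finrank (ZMod p) V ≤ 2 * Nat.card (P ⧸ Subgroup.zpowers y) := by omega
    _ ≤ _ := by rw [mul_comm]; exact Nat.mul_le_mul_left _ h3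

theorem rank_phi [Fact p.Prime] [Fintype P] (hq : Function.Surjective q) {y : FreeGroup X}
    (hy : y ∈ Subgroup.closure (FreeGroup.of '' {x | x ≠ j})) (hy1 : q y ≠ 1) :
    Fintype.card P ≤ 2 * finrank (ZMod p)
      (Submodule.span (ZMod p) (Set.range (phi p j q))) := by
  let Λ := Fintype.linearCombination (ZMod p) (phi p j q)
  have hΛ : LinearMap.range Λ = Submodule.span (ZMod p) (Set.range (phi p j q)) :=
    Fintype.range_linearCombination _ _
  have h1 := LinearMap.finrank_range_add_finrank_ker Λ
  rw [hΛ, Module.finrank_pi] at h1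
  -- invariant functions
  let V : Submodule (ZMod p) (P → ZMod p) :=
    { carrier := {f | ∀ x, x ≠ j → ∀ g, f (q (FreeGroup.of x) * g) = f g}
      add_mem' := by
        intro a b ha hb x hx g
        simp only [Pi.add_apply]
        rw [ha x hx, hb x hx]
      zero_mem' := fun x hx g => rfl
      smul_mem' := by
        intro c a ha x hx g
        simp only [Pi.smul_apply]
        rw [ha x hx] }
  have hVa : ∀ z ∈ Subgroup.closure (FreeGroup.of '' {x | x ≠ j}), ∀ f ∈ V, ∀ g,
      f (q z * g) = f g := by
    intro z hz f hf
    induction hz using Subgroup.closure_induction with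
    | mem x hx =>
      obtain ⟨x, hx, rfl⟩ := hx
      exact hf x hx
    | one => intro g; rw [map_one, one_mul]
    | mul a b _ _ iha ihb => intro g; rw [map_mul, mul_assoc, iha, ihb]
    | inv a _ iha =>
      intro g
      have := iha ((q a)⁻¹ * g)
      rw [mul_inv_cancel_left] at this
      rw [map_inv, ← this]
  have hV2 := finrank_invariant_le (q y) hy1 V (hVa y hy)
  let δ : V →ₗ[ZMod p] (P → ZMod p) :=
    { toFun := fun f g => f.1 (q (FreeGroup.of j) * g) - f.1 g
      map_add' := by
        intro a b
        funext g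
        simp only [Submodule.coe_add, Pi.add_apply]
        ring
      map_smul' := by
        intro c a
        funext g
        simp only [Submodule.coe_smul, Pi.smul_apply, smul_eq_mul, RingHom.id_apply]
        ring }
  have hker : LinearMap.ker Λ ≤ LinearMap.range δ := by
    intro c hc
    rw [LinearMap.mem_ker] at hc
    let ψ : FreeGroup X → P → ZMod p := fun w g => ∑ h, c h * cnt p j q w g h
    have hψmul : ∀ w v g, ψ (w * v) g = ψ v g + ψ w (q v * g) := by
      intro w v g
      simp only [ψ]
      rw [← Finset.sum_add_distrib]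
      refine Finset.sum_congr rfl fun h _ => ?_
      rw [cnt_mul, Pi.add_apply, mul_add]
    have hψker : ∀ k, q k = 1 → ψ k 1 = 0 := by
      intro k hk
      have h2 := congrFun hc ⟨k, hk⟩
      rw [Fintype.linearCombination_apply, Finset.sum_apply] at h2
      exact h2
    have hψeq : ∀ w v, q w = q v → ψ w 1 = ψ v 1 := by
      intro w v h
      have h3 : w = v * (v⁻¹ * w) := by group
      have h4 : q (v⁻¹ * w) = 1 := by rw [map_mul, map_inv, h, inv_mul_cancel]
      rw [h3, hψmul, hψker _ h4, h4, one_mul, zero_add]
    have hsurj : ∀ g, q (Function.surjInv hq g) = g := Function.surjInv_eq hq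
    let f : P → ZMod p := fun g => ψ (Function.surjInv hq g) 1
    have hf : ∀ x g, f (q (FreeGroup.of x) * g) = f g + ψ (FreeGroup.of x) g := by
      intro x g
      show ψ _ 1 = ψ _ 1 + _
      rw [hψeq _ (FreeGroup.of x * Function.surjInv hq g) (by rw [hsurj, map_mul, hsurj]),
        hψmul, hsurj, mul_one]
    have hfV : f ∈ V := by
      intro x hx g
      rw [hf]
      simp [ψ, cnt_of, hx]
    refine ⟨⟨f, hfV⟩, ?_⟩
    funext g
    show f (q (FreeGroup.of j) * g) - f g = c g
    rw [hf, add_sub_cancel_left]
    simp only [ψ, cnt_of, if_true]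
    rw [Finset.sum_eq_single g]
    · simp
    · intro b _ hb
      rw [Pi.single_eq_of_ne hb, mul_zero]
    · intro h; exact absurd (Finset.mem_univ g) h
  have h3 : finrank (ZMod p) (LinearMap.ker Λ) ≤ finrank (ZMod p) V :=
    (Submodule.finrank_mono hker).trans (LinearMap.finrank_range_le δ)
  rw [Nat.card_eq_fintype_card] at hV2
  omega

end rank

section conn

variable {X P Ω : Type*} [Group P] {p : ℕ} {j : X} {q : FreeGroup X →* P}
  {ρ : Fin 3 → (Multiplicative (ZMod p) →* Perm Ω)} {e : Fin 3 → P}

variable (j q ρ e) in
/-- `g` is reached from `1` by a word that acts trivially in the fibre. -/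
def Cc (g : P) : Prop := ∃ w, ∀ ω, act q (labT j ρ e) w (1, ω) = (g, ω)

theorem Cc_one : Cc j q ρ e 1 := ⟨1, fun ω => by simp⟩

theorem Cc_iff {x : X} {g : P} (h : labT j ρ e x g = 1) :
    Cc j q ρ e (q (FreeGroup.of x) * g) ↔ Cc j q ρ e g := by
  constructor
  · rintro ⟨w, hw⟩
    refine ⟨(FreeGroup.of x)⁻¹ * w, fun ω => ?_⟩
    rw [map_mul, Perm.mul_apply, hw, act_of_inv, inv_mul_cancel_left, h]
    simp [Perm.one_def]
  · rintro ⟨w, hw⟩
    refine ⟨FreeGroup.of x * w, fun ω => ?_⟩
    rw [map_mul, Perm.mul_apply, hw, act_of, h]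
    simp

theorem all_Cc [Fact p.Prime] [Fintype P] (hq : Function.Surjective q)
    (he : Function.Injective e)
    (hli : LinearIndependent (ZMod p) (fun i => phi p j q (e i))) (g : P) :
    Cc j q ρ e g := by
  let f : P → ZMod p := fun g => if Cc j q ρ e g then 1 else 0
  let c : P → ZMod p := fun h => f (q (FreeGroup.of j) * h) - f h
  have hfx : ∀ x, x ≠ j → ∀ g, f (q (FreeGroup.of x) * g) = f g := by
    intro x hx g
    simp only [f, Cc_iff (labT_ne_j (ρ := ρ) (e := e) hx g)]
  have hc0 : ∀ h, (∀ i, e i ≠ h) → c h = 0 := by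
    intro h hh
    simp only [c, f, Cc_iff (labT_ne_e (ρ := ρ) (j := j) j hh), sub_self]
  have hid : ∀ w g, ∑ h, c h * cnt p j q w g h = f (q w * g) - f g := by
    intro w
    induction w using FreeGroup.induction_on with
    | C1 => intro g; simp [cnt_one]
    | of x =>
      intro g
      rw [cnt_of]
      split_ifs with hx
      · subst hx
        rw [Finset.sum_eq_single g]
        · simp [c]
        · intro b _ hb
          rw [Pi.single_eq_of_ne hb, mul_zero]
        · intro h; exact absurd (Finset.mem_univ g) h
      · rw [hfx x hx]; simp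
    | inv_of x ih =>
      intro g
      have h1 := ih (q (FreeGroup.of x)⁻¹ * g)
      rw [cnt_inv]
      simp only [Pi.neg_apply, mul_neg, Finset.sum_neg_distrib]
      rw [h1, map_inv, mul_inv_cancel_left]
      ring
    | mul x y hx hy =>
      intro g
      rw [cnt_mul]
      simp only [Pi.add_apply, mul_add, Finset.sum_add_distrib]
      rw [hx, hy, map_mul, mul_assoc]
      ring
  have hsum : ∑ i, c (e i) • phi p j q (e i) = 0 := by
    funext k
    rw [Finset.sum_apply]
    have h1 := hid k.1 1
    have hk : q k.1 = 1 := k.2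
    rw [hk, one_mul, sub_self] at h1
    rw [Pi.zero_apply, ← h1]
    have h2 : ∑ h ∈ Finset.univ.image e, c h * cnt p j q k.1 1 h =
        ∑ h, c h * cnt p j q k.1 1 h := by
      refine Finset.sum_subset (Finset.subset_univ _) ?_
      intro h _ hh
      rw [hc0 h, zero_mul]
      intro i hi
      exact hh (Finset.mem_image.mpr ⟨i, Finset.mem_univ _, hi⟩)
    rw [← h2, Finset.sum_image fun a _ b _ h => he h]
    rfl
  have hce : ∀ i, c (e i) = 0 := Fintype.linearIndependent_iff.mp hli (fun i => c (e i)) hsum
  have hcz : ∀ h, c h = 0 := by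
    intro h
    by_cases hh : ∃ i, e i = h
    · obtain ⟨i, rfl⟩ := hh; exact hce i
    · push Not at hh; exact hc0 h hh
  obtain ⟨w, rfl⟩ := hq g
  have h1 := hid w 1
  simp only [hcz, zero_mul, Finset.sum_const_zero, mul_one] at h1
  have h2 : f (q w) = f 1 := (sub_eq_zero.mp h1.symm)
  have h3 : f 1 = 1 := if_pos Cc_one
  by_contra hcon
  rw [h3] at h2
  have h4 : f (q w) = 0 := if_neg hcon
  rw [h4] at h2
  exact zero_ne_one h2

/-- for each mark there is a word that closes up at the base point and acts by the mark. -/
theorem exists_loop [Fact p.Prime] [Fintype P] (hq : Function.Surjective q)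
    (he : Function.Injective e)
    (hli : LinearIndependent (ZMod p) (fun i => phi p j q (e i))) (i : Fin 3) :
    ∃ w, ∀ ω, act q (labT j ρ e) w (1, ω) = (1, ρ i (Multiplicative.ofAdd 1) ω) := by
  obtain ⟨u, hu⟩ := all_Cc (ρ := ρ) hq he hli (e i)
  obtain ⟨v, hv⟩ := all_Cc (ρ := ρ) hq he hli (q (FreeGroup.of j) * e i)
  refine ⟨v⁻¹ * (FreeGroup.of j * u), fun ω => ?_⟩
  rw [map_mul, Perm.mul_apply, map_mul, Perm.mul_apply, hu, act_of, labT_e he, map_inv,
    Perm.inv_def, Equiv.symm_apply_eq, hv]

end conn

end Pool.H96.GS
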