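import Pool.Agent.Helper96.GS.Count2
import Pool.Agent.Helper96.GS.Far

/-!
# Independence and connectivity for a splitting of the alphabet in two blocks
-/

set_option autoImplicit false

namespace Pool.H96.GS.Bk

open Equiv Classical Module

section rank

variable {X P : Type*} [Group P] (p : ℕ) (B : Set X) (q : FreeGroup X →* P)

/-- the counting functional of the vertex `h` on the kernel of `q`. -/
noncomputable def phi (h : P) : q.ker → ZMod p := fun k => cnt p B q k.1 1 h

variable {p B q}

/-- functions invariant under left translation by the subgroup `H` -/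
def Inv (p : ℕ) (H : Subgroup P) : Submodule (ZMod p) (P → ZMod p) where
  carrier := {f | ∀ z ∈ H, ∀ g, f (z * g) = f g}
  add_mem' := by
    intro a b ha hb z hz g
    simp only [Pi.add_apply]
    rw [ha z hz, hb z hz]
  zero_mem' := fun z hz g => rfl
  smul_mem' := by
    intro c a ha z hz g
    simp only [Pi.smul_apply]
    rw [ha z hz]

theorem finrank_Inv_le [Fact p.Prime] [Finite P] (H : Subgroup P) :
    Nat.card H * finrank (ZMod p) (Inv p H) ≤ Nat.card P := by
  let T : Inv p H →ₗ[ZMod p] (P ⧸ H → ZMod p) :=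
    { toFun := fun f c => f.1 (c.out)⁻¹
      map_add' := fun f g => rfl
      map_smul' := fun a f => rfl }
  have hT : Function.Injective T := by
    rw [← LinearMap.ker_eq_bot, LinearMap.ker_eq_bot']
    intro f hf
    ext g
    have h1 : f.1 ((QuotientGroup.mk g⁻¹ : P ⧸ H).out)⁻¹ = 0 :=
      congrFun hf (QuotientGroup.mk g⁻¹)
    obtain ⟨z, hz⟩ := QuotientGroup.mk_out_eq_mul H g⁻¹
    rw [hz, mul_inv_rev, inv_inv] at h1
    have h2 := f.2 (z : P)⁻¹ (inv_mem z.2) g
    show f.1 g = 0
    rw [← h2]
    exact h1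
  have hfin := Fintype.ofFinite (P ⧸ H)
  have h1 : finrank (ZMod p) (Inv p H) ≤ Nat.card (P ⧸ H) := by
    have := LinearMap.finrank_le_finrank_of_injective hT
    rwa [Module.finrank_pi, ← Nat.card_eq_fintype_card] at this
  rw [Subgroup.card_eq_card_quotient_mul_card_subgroup H, mul_comm]
  exact Nat.mul_le_mul_right _ h1

theorem mem_Inv_of_gen {C : Set X} {f : P → ZMod p}
    (hf : ∀ x ∈ C, ∀ g, f (q (FreeGroup.of x) * g) = f g) :
    f ∈ Inv p ((Subgroup.closure (FreeGroup.of '' C)).map q) := by
  rintro _ ⟨z, hz, rfl⟩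
  have hz' : z ∈ Subgroup.closure (FreeGroup.of '' C) := hz
  induction hz' using Subgroup.closure_induction with
  | mem x hx =>
    obtain ⟨x, hx, rfl⟩ := hx
    exact hf x hx
  | one => intro g; rw [map_one, one_mul]
  | mul a b ha hb iha ihb => intro g; rw [map_mul, mul_assoc, iha ha, ihb hb]
  | inv a ha iha =>
    intro g
    have := iha ha ((q a)⁻¹ * g)
    rw [mul_inv_cancel_left] at this
    rw [map_inv, ← this]

theorem rank_phi [Fact p.Prime] [Fintype P] (hq : Function.Surjective q)
    (hA : 2 ≤ Nat.card ((Subgroup.closure (FreeGroup.of '' Bᶜ)).map q))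
    (hB : 2 ≤ Nat.card ((Subgroup.closure (FreeGroup.of '' B)).map q))
    (hAB : 5 ≤ Nat.card ((Subgroup.closure (FreeGroup.of '' Bᶜ)).map q) +
      Nat.card ((Subgroup.closure (FreeGroup.of '' B)).map q)) :
    Fintype.card P ≤ 6 * finrank (ZMod p)
      (Submodule.span (ZMod p) (Set.range (phi p B q))) := by
  let Λ := Fintype.linearCombination (ZMod p) (phi p B q)
  have hΛ : LinearMap.range Λ = Submodule.span (ZMod p) (Set.range (phi p B q)) :=
    Fintype.range_linearCombination _ _
  have h1 := LinearMap.finrank_range_add_finrank_ker Λ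
  rw [hΛ, Module.finrank_pi] at h1
  set PA := (Subgroup.closure (FreeGroup.of '' Bᶜ)).map q with hPA
  set PB := (Subgroup.closure (FreeGroup.of '' B)).map q with hPB
  have hVA := finrank_Inv_le (p := p) PA
  have hVB := finrank_Inv_le (p := p) PB
  have hker : LinearMap.ker Λ ≤ Inv p PA ⊔ Inv p PB := by
    intro c hc
    rw [LinearMap.mem_ker] at hc
    let ψ : FreeGroup X → P → ZMod p := fun w g => ∑ h, c h * cnt p B q w g h
    have hψmul : ∀ w v g, ψ (w * v) g = ψ v g + ψ w (q v * g) := by
      intro w v g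
      simp only [ψ]
      rw [← Finset.sum_add_distrib]
      refine Finset.sum_congr rfl fun h _ => ?_
      rw [cnt_mul, Pi.add_apply, mul_add]
    have hψker : ∀ k, q k = 1 → ψ k 1 = 0 := by
      intro k hk
      have h2 := congrFun hc ⟨k, hk⟩
      rw [Fintype.linearCombination_apply, Finset.sum_apply] at h2
      exact h2
    have hψeq : ∀ w v, q w = q v → ψ w 1 = ψ v 1 := by
      intro w v h
      have h3 : w = v * (v⁻¹ * w) := by group
      have h4 : q (v⁻¹ * w) = 1 := by rw [map_mul, map_inv, h, inv_mul_cancel]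
      rw [h3, hψmul, hψker _ h4, h4, one_mul, zero_add]
    have hsurj : ∀ g, q (Function.surjInv hq g) = g := Function.surjInv_eq hq
    let f : P → ZMod p := fun g => ψ (Function.surjInv hq g) 1
    have hf : ∀ x g, f (q (FreeGroup.of x) * g) = f g + ψ (FreeGroup.of x) g := by
      intro x g
      show ψ _ 1 = ψ _ 1 + _
      rw [hψeq _ (FreeGroup.of x * Function.surjInv hq g) (by rw [hsurj, map_mul, hsurj]),
        hψmul, hsurj, mul_one]
    have hfA : f ∈ Inv p PA := by
      refine mem_Inv_of_gen (q := q) fun x hx g => ?_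
      have hx' : x ∉ B := hx
      rw [hf]
      simp [ψ, cnt_of, hx']
    have hfB : c - f ∈ Inv p PB := by
      refine mem_Inv_of_gen (q := q) fun x hx g => ?_
      simp only [Pi.sub_apply]
      have h5 : ψ (FreeGroup.of x) g = c (q (FreeGroup.of x) * g) - c g := by
        simp only [ψ, cnt_of, if_pos hx, Pi.sub_apply, mul_sub, Finset.sum_sub_distrib]
        congr 1
        · rw [Finset.sum_eq_single (q (FreeGroup.of x) * g)]
          · simp
          · intro b _ hb
            rw [Pi.single_eq_of_ne hb, mul_zero]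
          · intro h; exact absurd (Finset.mem_univ _) h
        · rw [Finset.sum_eq_single g]
          · simp
          · intro b _ hb
            rw [Pi.single_eq_of_ne hb, mul_zero]
          · intro h; exact absurd (Finset.mem_univ g) h
      rw [hf, h5]
      ring
    have h6 : c = f + (c - f) := by abel
    rw [h6]
    exact Submodule.add_mem_sup hfA hfB
  have h3 : finrank (ZMod p) (LinearMap.ker Λ) ≤
      finrank (ZMod p) (Inv p PA) + finrank (ZMod p) (Inv p PB) :=
    (Submodule.finrank_mono hker).trans (Submodule.finrank_add_le_finrank_add_finrank _ _)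
  rw [Nat.card_eq_fintype_card (α := P)] at hVA hVB
  have h2A : 2 * finrank (ZMod p) (Inv p PA) ≤ Fintype.card P :=
    (Nat.mul_le_mul_right _ hA).trans hVA
  have h2B : 2 * finrank (ZMod p) (Inv p PB) ≤ Fintype.card P :=
    (Nat.mul_le_mul_right _ hB).trans hVB
  have h33 : 3 ≤ Nat.card PA ∨ 3 ≤ Nat.card PB := by omega
  rcases h33 with h | h
  · have h3A : 3 * finrank (ZMod p) (Inv p PA) ≤ Fintype.card P :=
      (Nat.mul_le_mul_right _ h).trans hVA
    omega
  · have h3B : 3 * finrank (ZMod p) (Inv p PB) ≤ Fintype.card P :=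
      (Nat.mul_le_mul_right _ h).trans hVB
    omega

end rank

section conn

variable {X P Ω : Type*} [Group P] {p : ℕ} {B : Set X} {q : FreeGroup X →* P}
  {ρ : Fin 3 → (Multiplicative (ZMod p) →* Perm Ω)} {e : Fin 3 → P}

variable (B q ρ e) in
/-- `g` is reached from `1` by a word that acts trivially in the fibre. -/
def Ca (g : P) : Prop := ∃ w, ∀ ω, act q (labT B q ρ e) w (1, ω) = (g, ω)

variable (B q ρ e) in
/-- `g` is reached from `1` by a word that acts by the gauge in the fibre. -/
def Cb (g : P) : Prop := ∃ w, ∀ ω, act q (labT B q ρ e) w (1, ω) = (g, gau ρ e g ω)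

theorem Ca_one : Ca B q ρ e 1 := ⟨1, fun ω => by simp⟩

theorem Cb_iff_Ca {g : P} (hg : ∀ i, e i ≠ g) : Cb B q ρ e g ↔ Ca B q ρ e g := by
  unfold Ca Cb
  rw [gau_ne hg]
  rfl

theorem Ca_iff {x : X} (hx : x ∉ B) (g : P) :
    Ca B q ρ e (q (FreeGroup.of x) * g) ↔ Ca B q ρ e g := by
  have h : ∀ g, labT B q ρ e x g = 1 := fun g => by unfold labT; rw [if_neg hx]
  constructor
  · rintro ⟨w, hw⟩
    refine ⟨(FreeGroup.of x)⁻¹ * w, fun ω => ?_⟩
    rw [map_mul, Perm.mul_apply, hw, act_of_inv, inv_mul_cancel_left, h]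
    simp [Perm.one_def]
  · rintro ⟨w, hw⟩
    refine ⟨FreeGroup.of x * w, fun ω => ?_⟩
    rw [map_mul, Perm.mul_apply, hw, act_of, h]
    simp

theorem Cb_iff {x : X} (hx : x ∈ B) (g : P) :
    Cb B q ρ e (q (FreeGroup.of x) * g) ↔ Cb B q ρ e g := by
  have h : ∀ g, labT B q ρ e x g =
      gau ρ e (q (FreeGroup.of x) * g) * (gau ρ e g)⁻¹ := fun g => by
    unfold labT; rw [if_pos hx]
  constructor
  · rintro ⟨w, hw⟩
    refine ⟨(FreeGroup.of x)⁻¹ * w, fun ω => ?_⟩
    rw [map_mul, Perm.mul_apply, hw, act_of_inv, inv_mul_cancel_left, h]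
    rw [← Perm.inv_def, mul_inv_rev, inv_inv, Perm.mul_apply]
    simp
  · rintro ⟨w, hw⟩
    refine ⟨FreeGroup.of x * w, fun ω => ?_⟩
    rw [map_mul, Perm.mul_apply, hw, act_of, h, Perm.mul_apply]
    simp

theorem all_C [Fact p.Prime] [Fintype P] (hq : Function.Surjective q)
    (he : Function.Injective e)
    (hli : LinearIndependent (ZMod p) (fun i => phi p B q (e i))) (g : P) :
    Ca B q ρ e g ∧ Cb B q ρ e g := by
  let f : P → ZMod p := fun g => if Ca B q ρ e g then 1 else 0
  let f' : P → ZMod p := fun g => if Cb B q ρ e g then 1 else 0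
  let c : P → ZMod p := fun h => f' h - f h
  have hfx : ∀ x, x ∉ B → ∀ g, f (q (FreeGroup.of x) * g) = f g := by
    intro x hx g
    simp only [f, Ca_iff (ρ := ρ) (e := e) (q := q) hx g]
  have hfx' : ∀ x, x ∈ B → ∀ g, f' (q (FreeGroup.of x) * g) = f' g := by
    intro x hx g
    simp only [f', Cb_iff (ρ := ρ) (e := e) (q := q) hx g]
  have hc0 : ∀ h, (∀ i, e i ≠ h) → c h = 0 := by
    intro h hh
    simp only [c, f, f', Cb_iff_Ca (ρ := ρ) (q := q) (B := B) hh, sub_self]
  have hid : ∀ w g, ∑ h, c h * cnt p B q w g h = f g - f (q w * g) := by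
    intro w
    induction w using FreeGroup.induction_on with
    | C1 => intro g; simp [cnt_one]
    | of x =>
      intro g
      rw [cnt_of]
      split_ifs with hx
      · simp only [Pi.sub_apply, mul_sub, Finset.sum_sub_distrib]
        have e1 : ∀ v : P, ∑ h, c h * (Pi.single v 1 : P → ZMod p) h = c v := by
          intro v
          rw [Finset.sum_eq_single v]
          · simp
          · intro b _ hb
            rw [Pi.single_eq_of_ne hb, mul_zero]
          · intro h; exact absurd (Finset.mem_univ v) h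
        rw [e1, e1]
        simp only [c]
        rw [hfx' x hx]
        ring
      · rw [hfx x hx]; simp
    | inv_of x ih =>
      intro g
      have h1 := ih (q (FreeGroup.of x)⁻¹ * g)
      rw [cnt_inv]
      simp only [Pi.neg_apply, mul_neg, Finset.sum_neg_distrib]
      rw [h1, map_inv, mul_inv_cancel_left]
      ring
    | mul x y hx hy =>
      intro g
      rw [cnt_mul]
      simp only [Pi.add_apply, mul_add, Finset.sum_add_distrib]
      rw [hx, hy, map_mul, mul_assoc]
      ring
  have hsum : ∑ i, c (e i) • phi p B q (e i) = 0 := by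
    funext k
    rw [Finset.sum_apply]
    have h1 := hid k.1 1
    have hk : q k.1 = 1 := k.2
    rw [hk, one_mul, sub_self] at h1
    rw [Pi.zero_apply, ← h1]
    have h2 : ∑ h ∈ Finset.univ.image e, c h * cnt p B q k.1 1 h =
        ∑ h, c h * cnt p B q k.1 1 h := by
      refine Finset.sum_subset (Finset.subset_univ _) ?_
      intro h _ hh
      rw [hc0 h, zero_mul]
      intro i hi
      exact hh (Finset.mem_image.mpr ⟨i, Finset.mem_univ _, hi⟩)
    rw [← h2, Finset.sum_image fun a _ b _ h => he h]
    rfl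
  have hce : ∀ i, c (e i) = 0 := Fintype.linearIndependent_iff.mp hli (fun i => c (e i)) hsum
  have hcz : ∀ h, c h = 0 := by
    intro h
    by_cases hh : ∃ i, e i = h
    · obtain ⟨i, rfl⟩ := hh; exact hce i
    · push Not at hh; exact hc0 h hh
  have hfg : f g = 1 := by
    obtain ⟨w, rfl⟩ := hq g
    have h1 := hid w 1
    simp only [hcz, zero_mul, Finset.sum_const_zero, mul_one] at h1
    have h2 : f 1 = f (q w) := (sub_eq_zero.mp h1.symm)
    rw [← h2]
    exact if_pos Ca_one
  have hfg' : f' g = 1 := by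
    have := hcz g
    simp only [c] at this
    rw [sub_eq_zero.mp this, hfg]
  constructor
  · by_contra hcon
    have h4 : f g = 0 := if_neg hcon
    rw [h4] at hfg
    exact zero_ne_one hfg
  · by_contra hcon
    have h4 : f' g = 0 := if_neg hcon
    rw [h4] at hfg'
    exact zero_ne_one hfg'

/-- for each mark there is a word that closes up at the base point and acts by the mark. -/
theorem exists_loop [Fact p.Prime] [Fintype P] (hq : Function.Surjective q)
    (he : Function.Injective e)
    (hli : LinearIndependent (ZMod p) (fun i => phi p B q (e i))) (i : Fin 3) :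
    ∃ w, ∀ ω, act q (labT B q ρ e) w (1, ω) = (1, ρ i (Multiplicative.ofAdd 1) ω) := by
  obtain ⟨⟨u, hu⟩, v, hv⟩ := all_C (ρ := ρ) hq he hli (e i)
  refine ⟨u⁻¹ * v, fun ω => ?_⟩
  rw [map_mul, Perm.mul_apply, hv, gau_e he, map_inv, Perm.inv_def, Equiv.symm_apply_eq, hu]

end conn

end Pool.H96.GS.Bk
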