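import Pool.Agent.Helper96.GS.Fox

/-!
# The filtration by powers of the augmentation ideal and the dimension inequality
-/

set_option autoImplicit false

namespace Pool.H96.GS

open Equiv Classical Module MonoidAlgebra

section fil

variable (k X : Type*) [Field k]

/-- augmentation ideal, as in the frozen statement -/
noncomputable def Mi : Submodule k (MonoidAlgebra k (FreeGroup X)) :=
  Submodule.span k (Set.range fun g : FreeGroup X => MonoidAlgebra.of k (FreeGroup X) g - 1)

/-- `Fil 0` is everything, `Fil (n+1) = Fil n * M`. -/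
noncomputable def Fil : ℕ → Submodule k (MonoidAlgebra k (FreeGroup X))
  | 0 => ⊤
  | n + 1 => Fil n * Mi k X

variable {k X}

theorem mem_Mi {a : (MonoidAlgebra k (FreeGroup X))} : a ∈ Mi k X ↔ ε a = 0 := by
  constructor
  · intro ha
    induction ha using Submodule.span_induction with
    | mem x hx =>
      obtain ⟨g, rfl⟩ := hx
      show ε (ι k g - 1) = 0
      rw [map_sub, ε_ι, map_one, sub_self]
    | zero => exact map_zero _
    | add x y _ _ hx hy => rw [map_add, hx, hy, add_zero]
    | smul r x _ hx => rw [map_smul, hx, smul_zero]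
  · intro ha
    have h : ∀ b : (MonoidAlgebra k (FreeGroup X)), b - algebraMap k (MonoidAlgebra k (FreeGroup X)) (ε b) ∈ Mi k X := by
      intro b
      induction b using MonoidAlgebra.induction_on with
      | of g =>
        have h1 : ε (MonoidAlgebra.of k (FreeGroup X) g) = 1 := ε_ι g
        rw [h1, map_one]
        exact Submodule.subset_span ⟨g, rfl⟩
      | add x y hx hy =>
        have := Submodule.add_mem _ hx hy
        rw [map_add, map_add]
        convert this using 1
        abel
      | smul r x hx =>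
        have := Submodule.smul_mem _ r hx
        rw [map_smul, smul_eq_mul, map_mul, ← Algebra.smul_def, ← smul_sub]
        exact this
    have := h a
    rwa [ha, map_zero, sub_zero] at this

theorem top_mul_Mi : (⊤ : Submodule k (MonoidAlgebra k (FreeGroup X))) * Mi k X ≤ Mi k X := by
  rw [Submodule.mul_le]
  intro a _ b hb
  rw [mem_Mi] at hb ⊢
  rw [map_mul, hb, mul_zero]

theorem Mi_mul_top : Mi k X * (⊤ : Submodule k (MonoidAlgebra k (FreeGroup X))) ≤ Mi k X := by
  rw [Submodule.mul_le]
  intro a ha b _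
  rw [mem_Mi] at ha ⊢
  rw [map_mul, ha, zero_mul]

theorem top_mul_Fil (n : ℕ) : (⊤ : Submodule k (MonoidAlgebra k (FreeGroup X))) * Fil k X n ≤ Fil k X n := by
  induction n with
  | zero => exact le_top
  | succ n ih =>
    show ⊤ * (Fil k X n * Mi k X) ≤ Fil k X n * Mi k X
    rw [← mul_assoc]
    exact mul_le_mul' ih le_rfl

theorem Fil_mul_top (n : ℕ) : Fil k X n * (⊤ : Submodule k (MonoidAlgebra k (FreeGroup X))) ≤ Fil k X n := by
  cases n with
  | zero => exact le_top
  | succ n =>
    show Fil k X n * Mi k X * ⊤ ≤ Fil k X n * Mi k X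
    rw [mul_assoc]
    exact mul_le_mul' le_rfl Mi_mul_top

theorem Fil_mul_Fil (a b : ℕ) : Fil k X a * Fil k X b ≤ Fil k X (a + b) := by
  induction b with
  | zero => exact Fil_mul_top a
  | succ b ih =>
    show Fil k X a * (Fil k X b * Mi k X) ≤ Fil k X (a + b) * Mi k X
    rw [← mul_assoc]
    exact mul_le_mul' ih le_rfl

theorem Fil_succ_le (n : ℕ) : Fil k X (n + 1) ≤ Fil k X n :=
  (mul_le_mul' le_rfl le_top).trans (Fil_mul_top n)

theorem Fil_anti {m n : ℕ} (h : m ≤ n) : Fil k X n ≤ Fil k X m := by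
  induction h with
  | refl => exact le_rfl
  | step _ ih => exact (Fil_succ_le _).trans ih

theorem Fil_one : Fil k X 1 = Mi k X := by
  show ⊤ * Mi k X = Mi k X
  refine le_antisymm top_mul_Mi ?_
  intro a ha
  have := Submodule.mul_mem_mul (Submodule.mem_top : (1 : (MonoidAlgebra k (FreeGroup X))) ∈ (⊤ : Submodule k (MonoidAlgebra k (FreeGroup X)))) ha
  rwa [one_mul] at this

theorem pow_Mi {n : ℕ} (hn : 1 ≤ n) : (Mi k X) ^ n = Fil k X n := by
  induction n, hn using Nat.le_induction with
  | base => rw [pow_one, Fil_one]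
  | succ n _ ih => rw [pow_succ, ih]; rfl

theorem ε_of_mem_Fil {n : ℕ} (hn : 1 ≤ n) {a : (MonoidAlgebra k (FreeGroup X))} (ha : a ∈ Fil k X n) : ε a = 0 := by
  rw [← mem_Mi, ← Fil_one]
  exact Fil_anti hn ha

theorem D_mem_Fil (x : X) {n : ℕ} {a : (MonoidAlgebra k (FreeGroup X))} (ha : a ∈ Fil k X n) : D x a ∈ Fil k X (n - 1) := by
  cases n with
  | zero => exact Submodule.mem_top
  | succ n =>
    rw [Nat.add_sub_cancel]
    have ha' : a ∈ Fil k X n * Mi k X := ha
    induction ha' using Submodule.mul_induction_on' with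
    | mem_mul_mem u hu v hv =>
      rw [D_mul, mem_Mi.mp hv, zero_smul, add_zero]
      exact Fil_mul_top n (Submodule.mul_mem_mul hu Submodule.mem_top)
    | add u hu v hv ihu ihv =>
      rw [map_add]
      exact Submodule.add_mem _ (ihu hu) (ihv hv)

variable (k) in
/-- two-sided ideal generated by the `s - 1`. -/
noncomputable def Id (S : Set (FreeGroup X)) : Submodule k (MonoidAlgebra k (FreeGroup X)) :=
  Submodule.span k {c | ∃ a : (MonoidAlgebra k (FreeGroup X)), ∃ s ∈ S, ∃ b : (MonoidAlgebra k (FreeGroup X)), c = a * (ι k s - 1) * b}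

theorem top_mul_Id (S : Set (FreeGroup X)) : (⊤ : Submodule k (MonoidAlgebra k (FreeGroup X))) * Id k S ≤ Id k S := by
  rw [Submodule.mul_le]
  intro u _ c hc
  induction hc using Submodule.span_induction with
  | mem x hx =>
    obtain ⟨a, s, hs, b, rfl⟩ := hx
    exact Submodule.subset_span ⟨u * a, s, hs, b, by simp only [mul_assoc]⟩
  | zero => rw [mul_zero]; exact zero_mem _
  | add x y _ _ hx hy => rw [mul_add]; exact add_mem hx hy
  | smul r x _ hx => rw [mul_smul_comm]; exact Submodule.smul_mem _ _ hx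

theorem Id_mul_top (S : Set (FreeGroup X)) : Id k S * (⊤ : Submodule k (MonoidAlgebra k (FreeGroup X))) ≤ Id k S := by
  rw [Submodule.mul_le]
  intro c hc u _
  induction hc using Submodule.span_induction with
  | mem x hx =>
    obtain ⟨a, s, hs, b, rfl⟩ := hx
    exact Submodule.subset_span ⟨a, s, hs, b * u, by simp only [mul_assoc]⟩
  | zero => rw [zero_mul]; exact zero_mem _
  | add x y _ _ hx hy => rw [add_mul]; exact add_mem hx hy
  | smul r x _ hx => rw [smul_mul_assoc]; exact Submodule.smul_mem _ _ hx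

variable (k) in
/-- `J n = I + M^n` -/
noncomputable def J (S : Set (FreeGroup X)) (n : ℕ) : Submodule k (MonoidAlgebra k (FreeGroup X)) := Id k S ⊔ Fil k X n

theorem J_zero (S : Set (FreeGroup X)) : J k S 0 = ⊤ := by
  unfold J Fil; rw [sup_top_eq]

theorem mul_J_mem (S : Set (FreeGroup X)) (n : ℕ) (a : (MonoidAlgebra k (FreeGroup X))) {b : (MonoidAlgebra k (FreeGroup X))} (hb : b ∈ J k S n) :
    a * b ∈ J k S n := by
  have h : (⊤ : Submodule k (MonoidAlgebra k (FreeGroup X))) * J k S n ≤ J k S n := by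
    unfold J
    rw [Submodule.mul_sup]
    exact sup_le_sup (top_mul_Id S) (top_mul_Fil n)
  exact h (Submodule.mul_mem_mul Submodule.mem_top hb)

theorem J_mul_mem (S : Set (FreeGroup X)) (n : ℕ) {a : (MonoidAlgebra k (FreeGroup X))} (b : (MonoidAlgebra k (FreeGroup X))) (ha : a ∈ J k S n) :
    a * b ∈ J k S n := by
  have h : J k S n * (⊤ : Submodule k (MonoidAlgebra k (FreeGroup X))) ≤ J k S n := by
    unfold J
    rw [Submodule.sup_mul]
    exact sup_le_sup (Id_mul_top S) (Fil_mul_top n)
  exact h (Submodule.mul_mem_mul ha Submodule.mem_top)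

theorem J_mul_Fil (S : Set (FreeGroup X)) {n m l : ℕ} (h : l ≤ n + m) {a b : (MonoidAlgebra k (FreeGroup X))}
    (ha : a ∈ J k S n) (hb : b ∈ Fil k X m) : a * b ∈ J k S l := by
  have h1 : J k S n * Fil k X m ≤ J k S l := by
    unfold J
    rw [Submodule.sup_mul]
    refine sup_le_sup ?_ ((Fil_mul_Fil n m).trans (Fil_anti h))
    exact (mul_le_mul' le_rfl le_top).trans (Id_mul_top S)
  exact h1 (Submodule.mul_mem_mul ha hb)

variable [Fintype X]

instance finite_quot (S : Set (FreeGroup X)) (n : ℕ) : Module.Finite k ((MonoidAlgebra k (FreeGroup X)) ⧸ J k S n) := by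
  induction n with
  | zero =>
    rw [J_zero]
    infer_instance
  | succ n ih =>
    -- the map (c, u) ↦ c + Σ u_x (x - 1)
    let Ψ : (k × (X → (MonoidAlgebra k (FreeGroup X)))) →ₗ[k] (MonoidAlgebra k (FreeGroup X)) ⧸ J k S (n + 1) :=
      (J k S (n + 1)).mkQ.comp
        ((Algebra.linearMap k (MonoidAlgebra k (FreeGroup X))).comp (LinearMap.fst _ _ _) +
          (∑ x, (LinearMap.mulRight k (ι k (FreeGroup.of x) - 1)).comp
            ((LinearMap.proj x).comp (LinearMap.snd k k (X → (MonoidAlgebra k (FreeGroup X)))))))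
    have hΨ : Function.Surjective Ψ := by
      intro c
      obtain ⟨a, rfl⟩ := (J k S (n + 1)).mkQ_surjective c
      refine ⟨(ε a, fun x => D x a), ?_⟩
      show (J k S (n + 1)).mkQ _ = _
      congr 1
      conv_rhs => rw [fundamental a]
      simp [LinearMap.sum_apply]
    let N : Submodule k (k × (X → (MonoidAlgebra k (FreeGroup X)))) :=
      Submodule.prod ⊥ (Submodule.pi Set.univ fun _ => J k S n)
    have hN : N ≤ LinearMap.ker Ψ := by
      rintro ⟨c, u⟩ ⟨hc, hu⟩
      have hc' : c = 0 := hc
      subst hc'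
      rw [LinearMap.mem_ker]
      show (J k S (n + 1)).mkQ _ = _
      rw [Submodule.mkQ_apply, Submodule.Quotient.mk_eq_zero]
      simp only [LinearMap.add_apply, LinearMap.comp_apply, LinearMap.fst_apply, map_zero, zero_add,
        LinearMap.sum_apply, LinearMap.snd_apply, LinearMap.proj_apply, LinearMap.mulRight_apply]
      refine Submodule.sum_mem _ fun x _ => ?_
      refine J_mul_Fil S (le_refl (n + 1)) (hu x (Set.mem_univ x)) ?_
      rw [Fil_one, mem_Mi, map_sub, ε_ι, map_one, sub_self]
    have hfin : Module.Finite k ((k × (X → (MonoidAlgebra k (FreeGroup X)))) ⧸ N) := by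
      let Θ : (k × (X → (MonoidAlgebra k (FreeGroup X)))) →ₗ[k] (k × (X → (MonoidAlgebra k (FreeGroup X)) ⧸ J k S n)) :=
        LinearMap.prodMap LinearMap.id (LinearMap.pi fun x => (J k S n).mkQ.comp (LinearMap.proj x))
      have hker : LinearMap.ker Θ ≤ N := by
        rintro ⟨c, u⟩ hcu
        rw [LinearMap.mem_ker] at hcu
        refine ⟨congrArg Prod.fst hcu, fun x _ => ?_⟩
        have := congrFun (congrArg Prod.snd hcu) x
        exact (Submodule.Quotient.mk_eq_zero _).mp this
      have h1 : Module.Finite k ((k × (X → (MonoidAlgebra k (FreeGroup X)))) ⧸ LinearMap.ker Θ) :=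
        Module.Finite.of_injective (Θ.ker.liftQ Θ le_rfl) (by
          rw [← LinearMap.ker_eq_bot, Submodule.ker_liftQ_eq_bot _ _ _ le_rfl])
      exact Module.Finite.of_surjective (Submodule.mapQ _ N LinearMap.id hker)
        (by
          intro c
          obtain ⟨a, rfl⟩ := N.mkQ_surjective c
          exact ⟨Submodule.Quotient.mk a, rfl⟩)
    exact Module.Finite.of_surjective (N.liftQ Ψ hN) (by
      intro c
      obtain ⟨a, rfl⟩ := hΨ c
      exact ⟨Submodule.Quotient.mk a, rfl⟩)

end fil

end Pool.H96.GS
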