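import Pool.Agent.Helper96.GS.Fp

/-!
# Golod-Shafarevich groups all of whose relators are powers or miss a letter
-/

set_option autoImplicit false

namespace Pool.H96.GS

open Classical

theorem general {G : Type} [Group G] (hfp : FP G) {p l d : ℕ} (hp : p.Prime) (hl : l.Prime)
    (φ : FreeGroup (Fin d) →* G) (hφ : Function.Surjective φ) (R S : Set (FreeGroup (Fin d)))
    (hR : φ.ker = Subgroup.normalClosure R) (hS : GSIneq p d S)
    (h : (∃ j : Fin d, R ⊆ Zl l (Subgroup.normalClosure S) {{x | x ≠ j}}) ∨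
      (∃ B : Set (Fin d), B.Nonempty ∧ Bᶜ.Nonempty ∧
        (∀ s ∈ S, MonoidAlgebra.of (ZMod p) (FreeGroup (Fin d)) s - 1 ∈ M p d 2) ∧
        R ⊆ Zl l (Subgroup.normalClosure S) {B, Bᶜ})) : Large G := by
  have : Fact p.Prime := ⟨hp⟩
  have : Fact l.Prime := ⟨hl⟩
  obtain ⟨t, ht, ht1, hsum, hlt⟩ := hS
  have hlt' : 1 - (Fintype.card (Fin d) : ℝ) * t +
      ∑' r : S, t ^ sSup (degSet (ZMod p) (r : FreeGroup (Fin d))) < 0 := by
    rw [Fintype.card_fin]
    exact hlt
  rcases h with ⟨j, hj⟩ | ⟨B, ⟨b, hb⟩, ⟨a, ha⟩, hdeg, hB⟩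
  · refine large_of_fp hfp φ hφ R hR fun R0 h0 hfin => ?_
    refine large_general (p := l) j (Subgroup.normalClosure S)
      (gs_quot j S t ht ht1 hsum hlt') R0 hfin (h0.trans (hj.trans ?_))
    have hle : Zl l (Subgroup.normalClosure S) {{x | x ≠ j}} ≤
        Subgroup.normalClosure ((Subgroup.normalClosure S ⊓
          Subgroup.closure (FreeGroup.of '' {x | x ≠ j}) : Subgroup (FreeGroup (Fin d))) :
            Set (FreeGroup (Fin d))) ⊔ (⁅Subgroup.normalClosure S, Subgroup.normalClosure S⁆ ⊔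
          Subgroup.closure {x | ∃ n ∈ Subgroup.normalClosure S, x = n ^ l}) := by
      refine sup_le_sup_right ?_ _
      refine Subgroup.normalClosure_le_normal ?_
      rintro x ⟨hx, C, rfl, hC⟩
      exact Subgroup.subset_normalClosure ⟨hx, hC⟩
    exact hle
  · refine large_of_fp hfp φ hφ R hR fun R0 h0 hfin => ?_
    refine Bk.large_general (p := l) B (Subgroup.normalClosure S)
      (Bk.gs_quot B a b ha hb S (fun s hs => hdeg s hs) t ht ht1 hsum hlt') R0 hfin
      (h0.trans (hB.trans ?_))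
    have hle : Zl l (Subgroup.normalClosure S) {B, Bᶜ} ≤
        Subgroup.normalClosure ((Subgroup.normalClosure S ⊓
          Subgroup.closure (FreeGroup.of '' Bᶜ) : Subgroup (FreeGroup (Fin d))) :
            Set (FreeGroup (Fin d))) ⊔ (Subgroup.normalClosure ((Subgroup.normalClosure S ⊓
          Subgroup.closure (FreeGroup.of '' B) : Subgroup (FreeGroup (Fin d))) :
            Set (FreeGroup (Fin d))) ⊔ (⁅Subgroup.normalClosure S, Subgroup.normalClosure S⁆ ⊔
          Subgroup.closure {x | ∃ n ∈ Subgroup.normalClosure S, x = n ^ l})) := by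
      rw [← sup_assoc]
      refine sup_le_sup_right ?_ _
      refine Subgroup.normalClosure_le_normal ?_
      rintro x ⟨hx, C, hC, hxC⟩
      rcases hC with rfl | rfl
      · exact Subgroup.mem_sup_right (Subgroup.subset_normalClosure ⟨hx, hxC⟩)
      · exact Subgroup.mem_sup_left (Subgroup.subset_normalClosure ⟨hx, hxC⟩)
    exact hle

theorem gs_image {p d : ℕ} {R : Set (FreeGroup (Fin d))} {f : FreeGroup (Fin d) → FreeGroup (Fin d)}
    (hf : ∀ r ∈ R, deg p (f r) = deg p r) (hR : GSIneq p d R) : GSIneq p d (f '' R) := by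
  obtain ⟨t, ht, ht1, hsum, hlt⟩ := hR
  have hex : ∀ s : f '' R, ∃ r : R, f r = s := by
    rintro ⟨_, r, hr, rfl⟩
    exact ⟨⟨r, hr⟩, rfl⟩
  choose g hg using hex
  have hginj : Function.Injective g := by
    intro s s' h
    refine Subtype.ext ?_
    rw [← hg s, ← hg s', h]
  have heq : (fun s : f '' R => t ^ deg p (s : FreeGroup (Fin d))) =
      (fun r : R => t ^ deg p (r : FreeGroup (Fin d))) ∘ g := by
    funext s
    simp only [Function.comp_apply]
    rw [← hf (g s) (g s).2, hg s]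
  refine ⟨t, ht, ht1, ?_, ?_⟩
  · rw [heq]
    exact hsum.comp_injective hginj
  · rw [heq]
    have h1 : ∑' s, ((fun r : R => t ^ deg p (r : FreeGroup (Fin d))) ∘ g) s ≤
        ∑' r : R, t ^ deg p (r : FreeGroup (Fin d)) :=
      tsum_comp_le_tsum_of_inj hsum (fun r => pow_nonneg ht.le _) hginj
    linarith

theorem deg_pow {p l d : ℕ} (hp : p.Prime) (hl : l.Prime) (hne : p ≠ l)
    (v : FreeGroup (Fin d)) : deg p (v ^ l) = deg p v := by
  have : Fact p.Prime := ⟨hp⟩
  have h : ((l : ℕ) : ZMod p) ≠ 0 := by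
    intro h0
    rw [ZMod.natCast_eq_zero_iff] at h0
    exact hne ((Nat.prime_dvd_prime_iff_eq hp hl).mp h0)
  exact sSup_degSet_pow h v

theorem two_pow {p l d : ℕ} (hp : p.Prime) (hl : l.Prime) (hne : p ≠ l)
    (v : FreeGroup (Fin d))
    (h2 : MonoidAlgebra.of (ZMod p) (FreeGroup (Fin d)) (v ^ l) - 1 ∈ M p d 2) :
    MonoidAlgebra.of (ZMod p) (FreeGroup (Fin d)) v - 1 ∈ M p d 2 := by
  have : Fact p.Prime := ⟨hp⟩
  have h : ((l : ℕ) : ZMod p) ≠ 0 := by
    intro h0
    rw [ZMod.natCast_eq_zero_iff] at h0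
    exact hne ((Nat.prime_dvd_prime_iff_eq hp hl).mp h0)
  have h3 : ι (ZMod p) (v ^ l) - 1 ∈ Fil (ZMod p) (Fin d) 2 := by
    rw [← pow_Mi (by omega)]; exact h2
  have h4 := (mem_Fil_pow_iff h v (by omega)).mp h3
  rw [← pow_Mi (by omega)] at h4
  exact h4

theorem special {G : Type} [Group G] (hfp : FP G) {p l d : ℕ} (hp : p.Prime) (hl : l.Prime)
    (hne : p ≠ l) (φ : FreeGroup (Fin d) →* G) (hφ : Function.Surjective φ)
    (R : Set (FreeGroup (Fin d))) (hR : φ.ker = Subgroup.normalClosure R) (hS : GSIneq p d R)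
    (h : (∃ j : Fin d, ∀ r ∈ R, r ∈ blk {x | x ≠ j} ∨ ∃ v, r = v ^ l) ∨
      (∃ B : Set (Fin d), B.Nonempty ∧ Bᶜ.Nonempty ∧ ∀ r ∈ R,
        MonoidAlgebra.of (ZMod p) (FreeGroup (Fin d)) r - 1 ∈ M p d 2 ∧
        (r ∈ blk B ∨ r ∈ blk Bᶜ ∨ ∃ v, r = v ^ l))) : Large G := by
  rcases h with ⟨j, hj⟩ | ⟨B, hb, ha, hB⟩
  · let f : FreeGroup (Fin d) → FreeGroup (Fin d) := fun r =>
      if h : r ∈ blk {x | x ≠ j} then r else if h' : ∃ v, r = v ^ l then h'.choose else r
    have hf : ∀ r ∈ R, (r ∈ blk {x | x ≠ j} ∧ f r = r) ∨ r = f r ^ l := by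
      intro r hr
      simp only [f]
      by_cases h1 : r ∈ blk {x | x ≠ j}
      · exact Or.inl ⟨h1, dif_pos h1⟩
      · have h2 : ∃ v, r = v ^ l := (hj r hr).resolve_left h1
        rw [dif_neg h1, dif_pos h2]
        exact Or.inr h2.choose_spec
    have hdeg : ∀ r ∈ R, deg p (f r) = deg p r := by
      intro r hr
      rcases hf r hr with ⟨-, h1⟩ | h1
      · rw [h1]
      · conv_rhs => rw [h1]
        exact (deg_pow hp hl hne _).symm
    refine general hfp hp hl φ hφ R (f '' R) hR (gs_image hdeg hS) (Or.inl ⟨j, ?_⟩)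
    intro r hr
    have hin : f r ∈ Subgroup.normalClosure (f '' R) :=
      Subgroup.subset_normalClosure ⟨r, hr, rfl⟩
    rcases hf r hr with ⟨h1, h2⟩ | h1
    · rw [h2] at hin
      exact Subgroup.mem_sup_left (Subgroup.subset_normalClosure ⟨hin, _, rfl, h1⟩)
    · refine Subgroup.mem_sup_right (Subgroup.mem_sup_right (Subgroup.subset_closure ?_))
      exact ⟨f r, hin, h1⟩
  · let f : FreeGroup (Fin d) → FreeGroup (Fin d) := fun r =>
      if h : r ∈ blk B ∨ r ∈ blk Bᶜ then r else if h' : ∃ v, r = v ^ l then h'.choose else r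
    have hf : ∀ r ∈ R, ((r ∈ blk B ∨ r ∈ blk Bᶜ) ∧ f r = r) ∨ r = f r ^ l := by
      intro r hr
      simp only [f]
      by_cases h1 : r ∈ blk B ∨ r ∈ blk Bᶜ
      · exact Or.inl ⟨h1, dif_pos h1⟩
      · have h2 : ∃ v, r = v ^ l := by
          rcases (hB r hr).2 with h | h | h
          · exact absurd (Or.inl h) h1
          · exact absurd (Or.inr h) h1
          · exact h
        rw [dif_neg h1, dif_pos h2]
        exact Or.inr h2.choose_spec
    have hdeg : ∀ r ∈ R, deg p (f r) = deg p r := by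
      intro r hr
      rcases hf r hr with ⟨-, h1⟩ | h1
      · rw [h1]
      · conv_rhs => rw [h1]
        exact (deg_pow hp hl hne _).symm
    refine general hfp hp hl φ hφ R (f '' R) hR (gs_image hdeg hS) (Or.inr ⟨B, hb, ha, ?_, ?_⟩)
    · rintro _ ⟨r, hr, rfl⟩
      rcases hf r hr with ⟨-, h1⟩ | h1
      · rw [h1]; exact (hB r hr).1
      · refine two_pow hp hl hne _ ?_
        rw [← h1]
        exact (hB r hr).1
    · intro r hr
      have hin : f r ∈ Subgroup.normalClosure (f '' R) :=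
        Subgroup.subset_normalClosure ⟨r, hr, rfl⟩
      rcases hf r hr with ⟨h1, h2⟩ | h1
      · rw [h2] at hin
        rcases h1 with h1 | h1
        · exact Subgroup.mem_sup_left (Subgroup.subset_normalClosure ⟨hin, _, Or.inl rfl, h1⟩)
        · exact Subgroup.mem_sup_left (Subgroup.subset_normalClosure ⟨hin, _, Or.inr rfl, h1⟩)
      · refine Subgroup.mem_sup_right (Subgroup.mem_sup_right (Subgroup.subset_closure ?_))
        exact ⟨f r, hin, h1⟩

end Pool.H96.GS
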