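import Pool.Agent.Helper96.GS.Core

/-!
# Fox derivatives and the Golod-Shafarevich inequality
-/

set_option autoImplicit false

namespace Pool.H96.GS

open Equiv Classical Module MonoidAlgebra

section fox

variable {k X : Type*} [Field k]

variable (k) in
/-- group element in the group algebra -/
noncomputable def ι (g : FreeGroup X) : (MonoidAlgebra k (FreeGroup X)) := MonoidAlgebra.of k (FreeGroup X) g

theorem ι_mul (a b : FreeGroup X) : ι k (a * b) = ι k a * ι k b := map_mul _ _ _

theorem ι_one : ι k (1 : FreeGroup X) = 1 := map_one _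

theorem ι_inv_mul (a : FreeGroup X) : ι k a⁻¹ * ι k a = 1 := by
  rw [← ι_mul, inv_mul_cancel, ι_one]

theorem ι_mul_inv (a : FreeGroup X) : ι k a * ι k a⁻¹ = 1 := by
  rw [← ι_mul, mul_inv_cancel, ι_one]

/-- augmentation -/
noncomputable def ε : (MonoidAlgebra k (FreeGroup X)) →ₐ[k] k := MonoidAlgebra.lift k k (FreeGroup X) 1

theorem ε_ι (g : FreeGroup X) : ε (ι k g) = 1 := by
  unfold ε ι
  rw [MonoidAlgebra.lift_of]; rfl

/-- the unit `[[y, δ], [0, 1]]` -/
noncomputable def foxUnit (x y : X) : (Matrix (Fin 2) (Fin 2) (MonoidAlgebra k (FreeGroup X)))ˣ where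
  val := !![ι k (FreeGroup.of y), if y = x then 1 else 0; 0, 1]
  inv := !![ι k (FreeGroup.of y)⁻¹, -(ι k (FreeGroup.of y)⁻¹ * if y = x then 1 else 0); 0, 1]
  val_inv := by
    ext i j
    fin_cases i <;> fin_cases j <;>
      simp [Matrix.mul_apply, Fin.sum_univ_two, ι_mul_inv]
  inv_val := by
    ext i j
    fin_cases i <;> fin_cases j <;>
      simp [Matrix.mul_apply, Fin.sum_univ_two, ι_inv_mul]

/-- the matrix representation that carries the Fox derivative -/
noncomputable def Φ (x : X) : (MonoidAlgebra k (FreeGroup X)) →ₐ[k] Matrix (Fin 2) (Fin 2) (MonoidAlgebra k (FreeGroup X)) :=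
  MonoidAlgebra.lift k _ (FreeGroup X) ((Units.coeHom _).comp (FreeGroup.lift (foxUnit x)))

theorem Φ_ι (x : X) (g : FreeGroup X) :
    Φ x (ι k g) = ((FreeGroup.lift (foxUnit x) g : (Matrix (Fin 2) (Fin 2) (MonoidAlgebra k (FreeGroup X)))ˣ) :
      Matrix (Fin 2) (Fin 2) (MonoidAlgebra k (FreeGroup X))) := by
  unfold Φ ι
  rw [MonoidAlgebra.lift_of]; rfl

theorem Φ_of (x y : X) :
    Φ x (ι k (FreeGroup.of y)) = !![ι k (FreeGroup.of y), if y = x then 1 else 0; 0, 1] := by
  rw [Φ_ι, FreeGroup.lift_apply_of]; rfl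

theorem Φ_of_inv (x y : X) :
    Φ x (ι k (FreeGroup.of y)⁻¹) =
      !![ι k (FreeGroup.of y)⁻¹, -(ι k (FreeGroup.of y)⁻¹ * if y = x then 1 else 0); 0, 1] := by
  rw [Φ_ι, map_inv, FreeGroup.lift_apply_of]; rfl

theorem Φ_entries (x : X) (a : (MonoidAlgebra k (FreeGroup X))) :
    Φ x a 0 0 = a ∧ Φ x a 1 0 = 0 ∧ Φ x a 1 1 = algebraMap k _ (ε a) := by
  induction a using MonoidAlgebra.induction_on with
  | of g =>
    show Φ x (ι k g) 0 0 = ι k g ∧ Φ x (ι k g) 1 0 = 0 ∧ Φ x (ι k g) 1 1 = algebraMap k _ (ε (ι k g))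
    rw [ε_ι, map_one]
    induction g using FreeGroup.induction_on with
    | C1 => rw [ι_one, map_one]; simp
    | of y => rw [Φ_of]; simp
    | inv_of y _ => rw [Φ_of_inv]; simp
    | mul a b ha hb =>
      rw [ι_mul, map_mul]
      simp only [Matrix.mul_apply, Fin.sum_univ_two]
      rw [ha.1, ha.2.1, ha.2.2, hb.1, hb.2.1, hb.2.2]
      simp
  | add a b ha hb =>
    rw [map_add, map_add]
    simp only [Matrix.add_apply]
    rw [ha.1, ha.2.1, ha.2.2, hb.1, hb.2.1, hb.2.2, map_add]
    simp
  | smul r a ha =>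
    rw [map_smul, map_smul]
    simp only [Matrix.smul_apply]
    rw [ha.1, ha.2.1, ha.2.2]
    simp [Algebra.smul_def]

/-- Fox derivative -/
noncomputable def D (x : X) : (MonoidAlgebra k (FreeGroup X)) →ₗ[k] (MonoidAlgebra k (FreeGroup X)) where
  toFun a := Φ x a 0 1
  map_add' a b := by rw [map_add]; rfl
  map_smul' r a := by rw [map_smul]; rfl

theorem D_mul (x : X) (a b : (MonoidAlgebra k (FreeGroup X))) : D x (a * b) = a * D x b + ε b • D x a := by
  show Φ x (a * b) 0 1 = a * Φ x b 0 1 + ε b • Φ x a 0 1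
  rw [map_mul, Matrix.mul_apply, Fin.sum_univ_two, (Φ_entries x a).1, (Φ_entries x b).2.2,
    Algebra.smul_def, Algebra.commutes]

theorem D_of (x y : X) : D x (ι k (FreeGroup.of y)) = if y = x then 1 else 0 := by
  show Φ x (ι k (FreeGroup.of y)) 0 1 = _
  rw [Φ_of]; simp

theorem D_one (x : X) : D x (1 : (MonoidAlgebra k (FreeGroup X))) = 0 := by
  show Φ x 1 0 1 = 0
  rw [map_one]; simp

theorem D_algebraMap (x : X) (c : k) : D x (algebraMap k (MonoidAlgebra k (FreeGroup X)) c) = 0 := by
  rw [Algebra.algebraMap_eq_smul_one, map_smul, D_one, smul_zero]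

theorem D_mul_sub (x y : X) (u : (MonoidAlgebra k (FreeGroup X))) :
    D x (u * (ι k (FreeGroup.of y) - 1)) = if y = x then u else 0 := by
  rw [D_mul, map_sub, map_sub, D_of, D_one, ε_ι, map_one, sub_self, zero_smul, add_zero, sub_zero]
  split_ifs <;> simp

theorem fundamental [Fintype X] (a : (MonoidAlgebra k (FreeGroup X))) :
    a = algebraMap k _ (ε a) + ∑ x, D x a * (ι k (FreeGroup.of x) - 1) := by
  let E : (MonoidAlgebra k (FreeGroup X)) → (MonoidAlgebra k (FreeGroup X)) := fun a => a - algebraMap k _ (ε a) - ∑ x, D x a * (ι k (FreeGroup.of x) - 1)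
  have hadd : ∀ a b, E (a + b) = E a + E b := by
    intro a b
    simp only [E, map_add, add_mul, Finset.sum_add_distrib]
    abel
  have hsmul : ∀ (r : k) a, E (r • a) = r • E a := by
    intro r a
    simp only [E, map_smul, smul_mul_assoc, smul_sub, Finset.smul_sum, smul_eq_mul, map_mul]
    rw [Algebra.smul_def r (algebraMap k (MonoidAlgebra k (FreeGroup X)) (ε a))]
  have hmul : ∀ a b, E (a * b) = a * E b + ε b • E a := by
    intro a b
    have s1 : ∑ x, D x (a * b) * (ι k (FreeGroup.of x) - 1) =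
        a * ∑ x, D x b * (ι k (FreeGroup.of x) - 1) +
          ε b • ∑ x, D x a * (ι k (FreeGroup.of x) - 1) := by
      rw [Finset.mul_sum, Finset.smul_sum, ← Finset.sum_add_distrib]
      refine Finset.sum_congr rfl fun x _ => ?_
      rw [D_mul, add_mul, mul_assoc, smul_mul_assoc]
    have s2 : a * algebraMap k (MonoidAlgebra k (FreeGroup X)) (ε b) = ε b • a := by
      rw [Algebra.smul_def, Algebra.commutes]
    have s3 : ε b • algebraMap k (MonoidAlgebra k (FreeGroup X)) (ε a) = algebraMap k (MonoidAlgebra k (FreeGroup X)) (ε (a * b)) := by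
      rw [Algebra.smul_def, ← map_mul (algebraMap k (MonoidAlgebra k (FreeGroup X)))]
      congr 1
      rw [map_mul, mul_comm]
    simp only [E]
    rw [s1, mul_sub, mul_sub, smul_sub, smul_sub, s2, s3]
    abel
  have hι : ∀ g, E (ι k g) = 0 := by
    intro g
    induction g using FreeGroup.induction_on with
    | C1 =>
      simp only [E, ι_one, map_one, D_one, zero_mul, Finset.sum_const_zero, sub_self]
    | of y =>
      simp only [E, D_of, ε_ι, map_one]
      rw [Finset.sum_eq_single y]
      · simp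
      · intro b _ hb
        rw [if_neg (Ne.symm hb), zero_mul]
      · intro h; exact absurd (Finset.mem_univ y) h
    | inv_of y hy =>
      have h1 := hmul (ι k (FreeGroup.of y)⁻¹) (ι k (FreeGroup.of y))
      rw [ι_inv_mul, hy, mul_zero, zero_add, ε_ι, one_smul] at h1
      rw [← h1]
      simp only [E, map_one, D_one, zero_mul, Finset.sum_const_zero, sub_self]
    | mul a b ha hb => rw [ι_mul, hmul, ha, hb, mul_zero, smul_zero, add_zero]
  have h0 : E a = 0 := by
    induction a using MonoidAlgebra.induction_on with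
    | of g => exact hι g
    | add a b ha hb => rw [hadd, ha, hb, add_zero]
    | smul r a ha => rw [hsmul, ha, smul_zero]
  have h1 : a - algebraMap k _ (ε a) = ∑ x, D x a * (ι k (FreeGroup.of x) - 1) :=
    sub_eq_zero.mp h0
  rw [← h1, add_sub_cancel]

end fox

end Pool.H96.GS
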