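import Pool.Agent.Helper96.GS.Fil

/-!
# The dimension inequality of Golod and Shafarevich for the filtration by powers of `M`
-/

set_option autoImplicit false
set_option linter.unusedSectionVars false

namespace Pool.H96.GS

open Equiv Classical Module MonoidAlgebra

section ineq

variable (k X : Type*) [Field k] [Fintype X]

variable {k X}

variable (k) in
/-- dimension of the `n`-th truncation -/
noncomputable def bdim (S : Set (FreeGroup X)) (n : ℕ) : ℕ := finrank k ((MonoidAlgebra k (FreeGroup X)) ⧸ J k S n)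

variable (k) in
/-- the map `a ↦ (ε a, D_x a mod J n)` -/
noncomputable def Th (S : Set (FreeGroup X)) (n : ℕ) : (MonoidAlgebra k (FreeGroup X)) →ₗ[k] k × (X → (MonoidAlgebra k (FreeGroup X)) ⧸ J k S n) :=
  LinearMap.prod ε.toLinearMap (LinearMap.pi fun x => (J k S n).mkQ.comp (D x))

theorem Th_fst (S : Set (FreeGroup X)) (n : ℕ) (a : (MonoidAlgebra k (FreeGroup X))) : (Th k S n a).1 = ε a := rfl

theorem Th_snd (S : Set (FreeGroup X)) (n : ℕ) (a : (MonoidAlgebra k (FreeGroup X))) (x : X) :
    (Th k S n a).2 x = Submodule.Quotient.mk (D x a) := rfl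

theorem Th_surj (S : Set (FreeGroup X)) (n : ℕ) : Function.Surjective (Th k S n) := by
  rintro ⟨c, w⟩
  have hw : ∀ x, ∃ u : (MonoidAlgebra k (FreeGroup X)), (Submodule.Quotient.mk u : (MonoidAlgebra k (FreeGroup X)) ⧸ J k S n) = w x := fun x =>
    (J k S n).mkQ_surjective (w x)
  choose u hu using hw
  refine ⟨algebraMap k (MonoidAlgebra k (FreeGroup X)) c + ∑ y, u y * (ι k (FreeGroup.of y) - 1), ?_⟩
  refine Prod.ext ?_ ?_
  · rw [Th_fst, map_add, map_sum, AlgHom.commutes]
    have : ∀ y : X, ε (u y * (ι k (FreeGroup.of y) - 1)) = 0 := by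
      intro y
      rw [map_mul, map_sub, ε_ι, map_one, sub_self, mul_zero]
    rw [Finset.sum_congr rfl fun y _ => this y, Finset.sum_const_zero, add_zero]
    rfl
  · funext x
    rw [Th_snd, map_add, map_sum, D_algebraMap, zero_add]
    rw [Finset.sum_congr rfl fun y _ => D_mul_sub x y (u y)]
    rw [Finset.sum_ite_eq' Finset.univ x u, if_pos (Finset.mem_univ x)]
    exact hu x

variable (k) in
/-- the map `a ↦ (0, a * D_x s mod J n)` -/
noncomputable def Vs (S : Set (FreeGroup X)) (n : ℕ) (s : FreeGroup X) :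
    (MonoidAlgebra k (FreeGroup X)) →ₗ[k] k × (X → (MonoidAlgebra k (FreeGroup X)) ⧸ J k S n) :=
  LinearMap.prod 0 (LinearMap.pi fun x =>
    (J k S n).mkQ.comp (LinearMap.mulRight k (D x (ι k s - 1))))

theorem Vs_snd (S : Set (FreeGroup X)) (n : ℕ) (s : FreeGroup X) (a : (MonoidAlgebra k (FreeGroup X))) (x : X) :
    (Vs k S n s a).2 x = Submodule.Quotient.mk (a * D x (ι k s - 1)) := rfl

theorem Vs_fst (S : Set (FreeGroup X)) (n : ℕ) (s : FreeGroup X) (a : (MonoidAlgebra k (FreeGroup X))) :
    (Vs k S n s a).1 = 0 := rfl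

theorem Vs_rank {S : Set (FreeGroup X)} {n m : ℕ} {s : FreeGroup X} (hm : 1 ≤ m)
    (hs : ι k s - 1 ∈ Fil k X m) :
    finrank k (LinearMap.range (Vs k S n s)) ≤ bdim k S (n + 1 - m) := by
  have hker : J k S (n + 1 - m) ≤ LinearMap.ker (Vs k S n s) := by
    intro a ha
    rw [LinearMap.mem_ker]
    refine Prod.ext rfl ?_
    funext x
    rw [Vs_snd]
    refine (Submodule.Quotient.mk_eq_zero _).mpr ?_
    exact J_mul_Fil S (by omega) ha (D_mem_Fil x hs)
  have h1 : LinearMap.range (Vs k S n s) ≤
      LinearMap.range ((J k S (n + 1 - m)).liftQ (Vs k S n s) hker) := by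
    rintro _ ⟨a, rfl⟩
    exact ⟨Submodule.Quotient.mk a, rfl⟩
  exact (Submodule.finrank_mono h1).trans (LinearMap.finrank_range_le _)

theorem finrank_sup_range_le {W ι' : Type*} [AddCommGroup W] [Module k W] [Module.Finite k W]
    (T : Finset ι') (V : ι' → Submodule k W) :
    finrank k (T.sup V : Submodule k W) ≤ ∑ s ∈ T, finrank k (V s) := by
  induction T using Finset.induction_on with
  | empty => simp
  | insert a s ha ih =>
    rw [Finset.sup_insert, Finset.sum_insert ha]
    exact (Submodule.finrank_add_le_finrank_add_finrank _ _).trans (by omega)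

theorem key_ineq (S : Set (FreeGroup X)) (n : ℕ) (T : Finset (FreeGroup X)) (m : FreeGroup X → ℕ)
    (hm1 : ∀ s ∈ T, 1 ≤ m s) (hm : ∀ s ∈ T, ι k s - 1 ∈ Fil k X (m s))
    (hrest : ∀ s ∈ S, s ∉ T → ι k s - 1 ∈ Fil k X (n + 1)) :
    1 + Fintype.card X * bdim k S n ≤ bdim k S (n + 1) + ∑ s ∈ T, bdim k S (n + 1 - m s) := by
  set U : Submodule k (k × (X → (MonoidAlgebra k (FreeGroup X)) ⧸ J k S n)) :=
    T.sup fun s => LinearMap.range (Vs k S n s) with hU
  have hJ : J k S (n + 1) ≤ LinearMap.ker (U.mkQ.comp (Th k S n)) := by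
    refine (sup_le ?_ ?_ : Id k S ⊔ Fil k X (n + 1) ≤ _)
    · unfold Id
      rw [Submodule.span_le]
      rintro _ ⟨a, s, hs, b, rfl⟩
      show _ ∈ LinearMap.ker (U.mkQ.comp (Th k S n))
      rw [LinearMap.mem_ker, LinearMap.comp_apply, Submodule.mkQ_apply,
        Submodule.Quotient.mk_eq_zero]
      have he : Th k S n (a * (ι k s - 1) * b) = Vs k S n s (ε b • a) := by
        refine Prod.ext ?_ ?_
        · rw [Th_fst, Vs_fst, map_mul, map_mul, map_sub, ε_ι, map_one, sub_self, mul_zero, zero_mul]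
        · funext x
          rw [Th_snd, Vs_snd, Submodule.Quotient.eq, D_mul, D_mul]
          have h0 : ε (ι k s - 1) = 0 := by rw [map_sub, ε_ι, map_one, sub_self]
          rw [h0, zero_smul, add_zero, smul_mul_assoc, add_sub_cancel_right]
          refine Submodule.mem_sup_left ?_
          exact Submodule.subset_span ⟨a, s, hs, D x b, rfl⟩
      rw [he]
      by_cases hT : s ∈ T
      · have h1 : LinearMap.range (Vs k S n s) ≤ U := Finset.le_sup (f := fun s =>
          LinearMap.range (Vs k S n s)) hT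
        exact h1 ⟨_, rfl⟩
      · have h2 : Vs k S n s (ε b • a) = 0 := by
          refine Prod.ext rfl ?_
          funext x
          rw [Vs_snd]
          refine (Submodule.Quotient.mk_eq_zero _).mpr ?_
          refine mul_J_mem S n _ (Submodule.mem_sup_right ?_)
          exact D_mem_Fil x (hrest s hs hT)
        rw [h2]
        exact zero_mem _
    · intro a ha
      rw [LinearMap.mem_ker, LinearMap.comp_apply]
      have h2 : Th k S n a = 0 := by
        refine Prod.ext ?_ ?_
        · exact ε_of_mem_Fil (by omega) ha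
        · funext x
          rw [Th_snd]
          refine (Submodule.Quotient.mk_eq_zero _).mpr (Submodule.mem_sup_right ?_)
          exact D_mem_Fil x ha
      rw [h2, map_zero]
  have hsurj : Function.Surjective ((J k S (n + 1)).liftQ (U.mkQ.comp (Th k S n)) hJ) := by
    intro c
    obtain ⟨w, rfl⟩ := U.mkQ_surjective c
    obtain ⟨a, rfl⟩ := Th_surj S n w
    exact ⟨Submodule.Quotient.mk a, rfl⟩
  have h1 : finrank k ((k × (X → (MonoidAlgebra k (FreeGroup X)) ⧸ J k S n)) ⧸ U) ≤ bdim k S (n + 1) := by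
    have := LinearMap.finrank_range_le ((J k S (n + 1)).liftQ (U.mkQ.comp (Th k S n)) hJ)
    rw [LinearMap.range_eq_top.mpr hsurj, finrank_top] at this
    exact this
  have h2 : finrank k ((k × (X → (MonoidAlgebra k (FreeGroup X)) ⧸ J k S n)) ⧸ U) + finrank k U =
      finrank k (k × (X → (MonoidAlgebra k (FreeGroup X)) ⧸ J k S n)) := Submodule.finrank_quotient_add_finrank U
  have h3 : finrank k (k × (X → (MonoidAlgebra k (FreeGroup X)) ⧸ J k S n)) = 1 + Fintype.card X * bdim k S n := by
    rw [Module.finrank_prod, Module.finrank_self, Module.finrank_pi_fintype]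
    simp [bdim]
  have h4 : finrank k U ≤ ∑ s ∈ T, bdim k S (n + 1 - m s) :=
    (finrank_sup_range_le T _).trans (Finset.sum_le_sum fun s hs => Vs_rank (hm1 s hs) (hm s hs))
  omega

end ineq

end Pool.H96.GS
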