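import Pool.Agent.Helper96.GS.Growth

/-!
# Finite quotients of Golod-Shafarevich groups, and large finitely presented covers
-/

set_option autoImplicit false
set_option linter.unusedSectionVars false

namespace Pool.H96.GS

open Equiv Classical Module MonoidAlgebra

section quot

variable {k X : Type*} [Field k] [Fintype X]

variable (k) in
/-- left multiplication on the truncation -/
noncomputable def Lm (S : Set (FreeGroup X)) (N : ℕ) :
    FreeGroup X →* Module.End k ((MonoidAlgebra k (FreeGroup X)) ⧸ J k S N) where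
  toFun g := (J k S N).mapQ (J k S N) (LinearMap.mulLeft k (ι k g)) fun a ha => mul_J_mem S N _ ha
  map_one' := by
    refine LinearMap.ext fun v => ?_
    obtain ⟨a, rfl⟩ := (J k S N).mkQ_surjective v
    show Submodule.Quotient.mk (ι k 1 * a) = Submodule.Quotient.mk a
    rw [ι_one, one_mul]
  map_mul' g h := by
    refine LinearMap.ext fun v => ?_
    obtain ⟨a, rfl⟩ := (J k S N).mkQ_surjective v
    show Submodule.Quotient.mk (ι k (g * h) * a) = Submodule.Quotient.mk (ι k g * (ι k h * a))
    rw [ι_mul, mul_assoc]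

theorem Lm_mk (S : Set (FreeGroup X)) (N : ℕ) (g : FreeGroup X) (a : (MonoidAlgebra k (FreeGroup X))) :
    Lm k S N g (Submodule.Quotient.mk a) = Submodule.Quotient.mk (ι k g * a) := rfl

variable (k) in
/-- the action on the truncation by units -/
noncomputable def Qh (S : Set (FreeGroup X)) (N : ℕ) :
    FreeGroup X →* (Module.End k ((MonoidAlgebra k (FreeGroup X)) ⧸ J k S N))ˣ := (Lm k S N).toHomUnits

theorem Qh_val (S : Set (FreeGroup X)) (N : ℕ) (g : FreeGroup X) :
    ((Qh k S N g : (Module.End k ((MonoidAlgebra k (FreeGroup X)) ⧸ J k S N))ˣ) : Module.End k ((MonoidAlgebra k (FreeGroup X)) ⧸ J k S N)) = Lm k S N g := rfl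

theorem Qh_of_mem {S : Set (FreeGroup X)} {N : ℕ} {s : FreeGroup X} (hs : s ∈ S) :
    Qh k S N s = 1 := by
  refine Units.ext ?_
  rw [Qh_val, Units.val_one]
  refine LinearMap.ext fun v => ?_
  obtain ⟨a, rfl⟩ := (J k S N).mkQ_surjective v
  rw [Submodule.mkQ_apply, Lm_mk, Module.End.one_apply, Submodule.Quotient.eq]
  refine Submodule.mem_sup_left (Submodule.subset_span ⟨1, s, hs, a, ?_⟩)
  rw [one_mul, sub_mul, one_mul]

theorem span_mk (S : Set (FreeGroup X)) (N : ℕ) (W : Submodule k ((MonoidAlgebra k (FreeGroup X)) ⧸ J k S N))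
    (h : ∀ g : FreeGroup X, (Submodule.Quotient.mk (ι k g) : (MonoidAlgebra k (FreeGroup X)) ⧸ J k S N) ∈ W) : W = ⊤ := by
  rw [eq_top_iff]
  rintro v -
  obtain ⟨a, rfl⟩ := (J k S N).mkQ_surjective v
  induction a using MonoidAlgebra.induction_on with
  | of g => exact h g
  | add a b ha hb => rw [map_add]; exact add_mem ha hb
  | smul r a ha => rw [map_smul]; exact Submodule.smul_mem _ _ ha

theorem bdim_le_card (S : Set (FreeGroup X)) (N : ℕ) [Finite (Qh k S N).range] :
    bdim k S N ≤ Nat.card (Qh k S N).range := by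
  have := Fintype.ofFinite (Qh k S N).range
  let f : (Qh k S N).range → (MonoidAlgebra k (FreeGroup X)) ⧸ J k S N := fun σ =>
    ((σ : (Module.End k ((MonoidAlgebra k (FreeGroup X)) ⧸ J k S N))ˣ) : Module.End k ((MonoidAlgebra k (FreeGroup X)) ⧸ J k S N)) (Submodule.Quotient.mk 1)
  have hspan : Submodule.span k (Set.range f) = ⊤ := by
    refine span_mk S N _ fun g => Submodule.subset_span ⟨⟨Qh k S N g, ⟨g, rfl⟩⟩, ?_⟩
    show Lm k S N g (Submodule.Quotient.mk 1) = _
    rw [Lm_mk, mul_one]
  have h1 : finrank k (Submodule.span k (Set.range f)) ≤ Fintype.card (Qh k S N).range :=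
    finrank_range_le_card f
  rw [hspan, finrank_top] at h1
  rw [Nat.card_eq_fintype_card]
  exact h1

theorem bdim_le_of_trivial (S : Set (FreeGroup X)) (N : ℕ) [Finite (Qh k S N).range] (j : X)
    (h : ∀ x, x ≠ j → Qh k S N (FreeGroup.of x) = 1) : bdim k S N ≤ N := by
  let z : (MonoidAlgebra k (FreeGroup X)) := ι k (FreeGroup.of j)
  let w : Fin N → (MonoidAlgebra k (FreeGroup X)) ⧸ J k S N := fun i => Submodule.Quotient.mk ((z - 1) ^ (i : ℕ))
  have hFil : ∀ n : ℕ, (z - 1) ^ n ∈ Fil k X n := by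
    intro n
    induction n with
    | zero => exact Submodule.mem_top
    | succ n ih =>
      rw [pow_succ]
      exact Submodule.mul_mem_mul ih (sub_mem_Mi _)
  have hw : ∀ n : ℕ, (Submodule.Quotient.mk ((z - 1) ^ n) : (MonoidAlgebra k (FreeGroup X)) ⧸ J k S N) ∈
      Submodule.span k (Set.range w) := by
    intro n
    by_cases hn : n < N
    · exact Submodule.subset_span ⟨⟨n, hn⟩, rfl⟩
    · have : (Submodule.Quotient.mk ((z - 1) ^ n) : (MonoidAlgebra k (FreeGroup X)) ⧸ J k S N) = 0 :=
        (Submodule.Quotient.mk_eq_zero _).mpr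
          (Submodule.mem_sup_right (Fil_anti (by omega) (hFil n)))
      rw [this]
      exact zero_mem _
  have hstab : ∀ v ∈ Submodule.span k (Set.range w),
      Lm k S N (FreeGroup.of j) v ∈ Submodule.span k (Set.range w) := by
    intro v hv
    induction hv using Submodule.span_induction with
    | mem x hx =>
      obtain ⟨i, rfl⟩ := hx
      have h1 : Lm k S N (FreeGroup.of j) (w i) =
          Submodule.Quotient.mk ((z - 1) ^ ((i : ℕ) + 1)) + Submodule.Quotient.mk ((z - 1) ^ (i : ℕ)) := by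
        show Submodule.Quotient.mk (z * (z - 1) ^ (i : ℕ)) = _
        rw [← Submodule.Quotient.mk_add, pow_succ', sub_mul, one_mul, sub_add_cancel]
      rw [h1]
      exact add_mem (hw _) (hw _)
    | zero => rw [map_zero]; exact zero_mem _
    | add x y _ _ hx hy => rw [map_add]; exact add_mem hx hy
    | smul r x _ hx => rw [map_smul]; exact Submodule.smul_mem _ _ hx
  have hz : ∀ g, Qh k S N g ∈ Subgroup.zpowers (Qh k S N (FreeGroup.of j)) := by
    intro g
    induction g using FreeGroup.induction_on with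
    | C1 => rw [map_one]; exact one_mem _
    | of y =>
      by_cases hy : y = j
      · rw [hy]; exact Subgroup.mem_zpowers _
      · rw [h y hy]; exact one_mem _
    | inv_of y hy => rw [map_inv]; exact inv_mem hy
    | mul a b ha hb => rw [map_mul]; exact mul_mem ha hb
  have hpow : ∀ g, ∃ n : ℕ, Qh k S N g = Qh k S N (FreeGroup.of j) ^ n := by
    intro g
    let P := (Qh k S N).range
    let zP : P := ⟨Qh k S N (FreeGroup.of j), ⟨_, rfl⟩⟩
    let gP : P := ⟨Qh k S N g, ⟨_, rfl⟩⟩
    have h1 : gP ∈ Subgroup.zpowers zP := by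
      obtain ⟨n, hn⟩ := hz g
      exact ⟨n, Subtype.ext (by simpa using hn)⟩
    rw [← mem_powers_iff_mem_zpowers] at h1
    obtain ⟨n, hn⟩ := h1
    exact ⟨n, (congrArg Subtype.val hn).symm⟩
  have hn : ∀ n : ℕ, (Lm k S N (FreeGroup.of j) ^ n) (Submodule.Quotient.mk 1) ∈
      Submodule.span k (Set.range w) := by
    intro n
    induction n with
    | zero =>
      have := hw 0
      rwa [pow_zero] at this
    | succ n ih =>
      rw [pow_succ', Module.End.mul_apply]
      exact hstab _ ih
  have htop : Submodule.span k (Set.range w) = ⊤ := by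
    refine span_mk S N _ fun g => ?_
    obtain ⟨n, hg⟩ := hpow g
    have h1 : Lm k S N g = Lm k S N (FreeGroup.of j) ^ n := by
      have := congrArg (fun u : (Module.End k ((MonoidAlgebra k (FreeGroup X)) ⧸ J k S N))ˣ =>
        (u : Module.End k ((MonoidAlgebra k (FreeGroup X)) ⧸ J k S N))) hg
      simpa [Qh_val] using this
    have h2 : (Submodule.Quotient.mk (ι k g) : (MonoidAlgebra k (FreeGroup X)) ⧸ J k S N) =
        Lm k S N g (Submodule.Quotient.mk 1) := by rw [Lm_mk, mul_one]
    rw [h2, h1]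
    exact hn n
  have h1 : finrank k (Submodule.span k (Set.range w)) ≤ Fintype.card (Fin N) :=
    finrank_range_le_card w
  rw [htop, finrank_top, Fintype.card_fin] at h1
  exact h1

end quot

theorem gs_quot {p : ℕ} [Fact p.Prime] {X : Type*} [Fintype X] (j : X) (S : Set (FreeGroup X))
    (t : ℝ) (ht : 0 < t) (ht1 : t < 1)
    (hsum : Summable fun r : S => t ^ sSup (degSet (ZMod p) (r : FreeGroup X)))
    (hlt : 1 - (Fintype.card X : ℝ) * t +
      ∑' r : S, t ^ sSup (degSet (ZMod p) (r : FreeGroup X)) < 0) (m : ℕ) :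
    ∃ K : Subgroup (FreeGroup X), K.Normal ∧ K.FiniteIndex ∧ Subgroup.normalClosure S ≤ K ∧
      m ≤ K.index ∧ ¬ Subgroup.closure (FreeGroup.of '' {x | x ≠ j}) ≤ K := by
  obtain ⟨N, -, hN, hN'⟩ := gs_growth S t ht ht1 hsum hlt m
  have hV : Finite (MonoidAlgebra (ZMod p) (FreeGroup X) ⧸ J (ZMod p) S N) :=
    Module.finite_of_finite (ZMod p)
  have hE : Finite (Module.End (ZMod p) (MonoidAlgebra (ZMod p) (FreeGroup X) ⧸ J (ZMod p) S N)) :=
    Finite.of_injective (fun f => (f : _ → _)) DFunLike.coe_injective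
  have hU : Finite (Module.End (ZMod p) (MonoidAlgebra (ZMod p) (FreeGroup X) ⧸ J (ZMod p) S N))ˣ :=
    Finite.of_injective _ Units.val_injective
  have hP : Finite (Qh (ZMod p) S N).range := inferInstance
  refine ⟨(Qh (ZMod p) S N).ker, inferInstance, ?_, ?_, ?_, ?_⟩
  · exact ⟨by
      rw [Subgroup.index_ker]
      exact Nat.card_pos.ne'⟩
  · exact Subgroup.normalClosure_le_normal fun s hs => Qh_of_mem hs
  · rw [Subgroup.index_ker]
    exact hN.le.trans (bdim_le_card S N)
  · intro hle
    have := bdim_le_of_trivial S N j fun x hx =>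
      hle (Subgroup.subset_closure ⟨x, hx, rfl⟩)
    omega

/-- the general statement -/
theorem large_general {p : ℕ} [Fact p.Prime] {X : Type*} (j : X) (N : Subgroup (FreeGroup X))
    (h : ∀ m : ℕ, ∃ K : Subgroup (FreeGroup X), K.Normal ∧ K.FiniteIndex ∧ N ≤ K ∧
      m ≤ K.index ∧ ¬ Subgroup.closure (FreeGroup.of '' {x | x ≠ j}) ≤ K)
    (R : Set (FreeGroup X)) (hfin : R.Finite)
    (hR : R ⊆ (Subgroup.normalClosure ((N ⊓ Subgroup.closure (FreeGroup.of '' {x | x ≠ j}) :
        Subgroup (FreeGroup X)) : Set (FreeGroup X)) ⊔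
      (⁅N, N⁆ ⊔ Subgroup.closure {x | ∃ n ∈ N, x = n ^ p}) : Subgroup (FreeGroup X))) :
    Large (FreeGroup X ⧸ Subgroup.normalClosure R) := by
  let L : Finset (List (X × Bool)) :=
    hfin.toFinset.biUnion fun r => r.toWord.tails.toFinset
  obtain ⟨K, hK, hKf, hNK, hm, hF⟩ := h (4 + 4 * L.card ^ 2 + 1)
  rw [SetLike.not_le_iff_exists] at hF
  obtain ⟨y, hy, hyK⟩ := hF
  have : Fintype (FreeGroup X ⧸ K) := Fintype.ofFinite _
  refine core (q := QuotientGroup.mk' K) (QuotientGroup.mk'_surjective K)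
    (fun r hr => le_Z (q := QuotientGroup.mk' K) (fun n hn => ?_) (hR hr)) L ?_ hy ?_ ?_
  · exact (QuotientGroup.eq_one_iff n).mpr (hNK hn)
  · intro r hr u hu
    refine Finset.mem_biUnion.mpr ⟨r, hfin.mem_toFinset.mpr hr, ?_⟩
    rw [List.mem_toFinset, List.mem_tails]
    exact hu
  · intro h1
    exact hyK ((QuotientGroup.eq_one_iff y).mp h1)
  · rw [← Nat.card_eq_fintype_card]
    have : K.index = Nat.card (FreeGroup X ⧸ K) := rfl
    omega

end Pool.H96.GS
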