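import Pool.Agent.Helper96.GS.Quot
import Pool.Agent.Helper96.GS.Core2

/-!
# Finite quotients in which both blocks survive
-/

set_option autoImplicit false
set_option linter.unusedSectionVars false

namespace Pool.H96.GS.Bk

open Equiv Classical Module MonoidAlgebra

section quot

variable {k X : Type*} [Field k] [Fintype X]

theorem Id_le_Fil {S : Set (FreeGroup X)} {n : ℕ} (hS : ∀ s ∈ S, ι k s - 1 ∈ Fil k X n) :
    Id k S ≤ Fil k X n := by
  unfold Id
  rw [Submodule.span_le]
  rintro _ ⟨a, s, hs, b, rfl⟩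
  have h1 : a * (ι k s - 1) ∈ Fil k X n :=
    top_mul_Fil n (Submodule.mul_mem_mul Submodule.mem_top (hS s hs))
  exact Fil_mul_top n (Submodule.mul_mem_mul h1 Submodule.mem_top)

/-- letters survive if all relators have degree at least two -/
theorem Qh_of_ne_one {S : Set (FreeGroup X)} {N : ℕ} (hN : 2 ≤ N)
    (hS : ∀ s ∈ S, ι k s - 1 ∈ Fil k X 2) (x : X) : Qh k S N (FreeGroup.of x) ≠ 1 := by
  intro h1
  have h2 : Lm k S N (FreeGroup.of x) = 1 := by
    have := congrArg (fun u : (Module.End k ((MonoidAlgebra k (FreeGroup X)) ⧸ J k S N))ˣ =>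
        (u : Module.End k ((MonoidAlgebra k (FreeGroup X)) ⧸ J k S N))) h1
    simpa [Qh_val] using this
  have h3 : Lm k S N (FreeGroup.of x) (Submodule.Quotient.mk 1) = Submodule.Quotient.mk 1 := by
    rw [h2]; rfl
  rw [Lm_mk, mul_one, Submodule.Quotient.eq] at h3
  have h4 : ι k (FreeGroup.of x) - 1 ∈ Fil k X 2 := by
    have h5 : J k S N ≤ Fil k X 2 := sup_le (Id_le_Fil hS) (Fil_anti hN)
    exact h5 h3
  have h6 := D_mem_Fil x h4
  rw [map_sub, D_of, D_one, if_pos rfl, sub_zero] at h6
  have h7 := ε_of_mem_Fil (le_refl 1) h6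
  rw [map_one] at h7
  exact one_ne_zero h7

variable (k) in
/-- alternating products of `a - 1` and `b - 1` -/
noncomputable def alt (a b : X) : ℕ → Bool → (MonoidAlgebra k (FreeGroup X))
  | 0, _ => 1
  | n + 1, true => (ι k (FreeGroup.of a) - 1) * alt a b n false
  | n + 1, false => (ι k (FreeGroup.of b) - 1) * alt a b n true

theorem alt_mem (a b : X) (n : ℕ) (c : Bool) : alt k a b n c ∈ Fil k X n := by
  induction n generalizing c with
  | zero => exact Submodule.mem_top
  | succ n ih =>
    have key : ∀ g : FreeGroup X, ∀ u ∈ Fil k X n, (ι k g - 1) * u ∈ Fil k X (n + 1) := by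
      intro g u hu
      rw [add_comm n 1]
      refine Fil_mul_Fil 1 n (Submodule.mul_mem_mul ?_ hu)
      rw [Fil_one]
      exact sub_mem_Mi g
    cases c with
    | true => exact key _ _ (ih _)
    | false => exact key _ _ (ih _)

theorem bdim_le_dihedral (S : Set (FreeGroup X)) (N : ℕ) (a b : X)
    (h : ∀ x, Qh k S N (FreeGroup.of x) = Qh k S N (FreeGroup.of a) ∨
      Qh k S N (FreeGroup.of x) = Qh k S N (FreeGroup.of b))
    (ha : Qh k S N (FreeGroup.of a) * Qh k S N (FreeGroup.of a) = 1)
    (hb : Qh k S N (FreeGroup.of b) * Qh k S N (FreeGroup.of b) = 1) : bdim k S N ≤ 2 * N := by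
  let w : Bool × Fin N → (MonoidAlgebra k (FreeGroup X)) ⧸ J k S N := fun i => Submodule.Quotient.mk (alt k a b i.2 i.1)
  have hval : ∀ g g', Qh k S N g = Qh k S N g' → Lm k S N g = Lm k S N g' := by
    intro g g' hg
    have := congrArg (fun u : (Module.End k ((MonoidAlgebra k (FreeGroup X)) ⧸ J k S N))ˣ =>
        (u : Module.End k ((MonoidAlgebra k (FreeGroup X)) ⧸ J k S N))) hg
    simpa [Qh_val] using this
  have hsq : ∀ g, Qh k S N g * Qh k S N g = 1 → ∀ v, Lm k S N g (Lm k S N g v) = v := by
    intro g hg v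
    rw [← map_mul, ← map_one (Qh k S N)] at hg
    have h1 := hval _ _ hg
    rw [map_mul, map_one] at h1
    exact LinearMap.congr_fun h1 v
  have hw : ∀ (n : ℕ) (c : Bool), (Submodule.Quotient.mk (alt k a b n c) : (MonoidAlgebra k (FreeGroup X)) ⧸ J k S N) ∈
      Submodule.span k (Set.range w) := by
    intro n c
    by_cases hn : n < N
    · exact Submodule.subset_span ⟨(c, ⟨n, hn⟩), rfl⟩
    · have : (Submodule.Quotient.mk (alt k a b n c) : (MonoidAlgebra k (FreeGroup X)) ⧸ J k S N) = 0 :=
        (Submodule.Quotient.mk_eq_zero _).mpr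
          (Submodule.mem_sup_right (Fil_anti (by omega) (alt_mem a b n c)))
      rw [this]
      exact zero_mem _
  -- the two generators preserve the span
  have hA : ∀ v ∈ Submodule.span k (Set.range w),
      Lm k S N (FreeGroup.of a) v ∈ Submodule.span k (Set.range w) := by
    have hfalse : ∀ n, Lm k S N (FreeGroup.of a) (Submodule.Quotient.mk (alt k a b n false)) ∈
        Submodule.span k (Set.range w) := by
      intro n
      have e1 : Lm k S N (FreeGroup.of a) (Submodule.Quotient.mk (alt k a b n false)) =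
          Submodule.Quotient.mk (alt k a b (n + 1) true) +
            Submodule.Quotient.mk (alt k a b n false) := by
        rw [Lm_mk, ← Submodule.Quotient.mk_add]
        show _ = Submodule.Quotient.mk ((ι k (FreeGroup.of a) - 1) * alt k a b n false + _)
        rw [sub_mul, one_mul, sub_add_cancel]
      rw [e1]
      exact add_mem (hw _ _) (hw _ _)
    intro v hv
    induction hv using Submodule.span_induction with
    | mem x hx =>
      obtain ⟨⟨c, i, hi⟩, rfl⟩ := hx
      cases c with
      | false => exact hfalse i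
      | true =>
        cases i with
        | zero => exact hfalse 0
        | succ n =>
          have e2 : (w (true, ⟨n + 1, hi⟩) : (MonoidAlgebra k (FreeGroup X)) ⧸ J k S N) =
              Lm k S N (FreeGroup.of a) (Submodule.Quotient.mk (alt k a b n false)) -
                Submodule.Quotient.mk (alt k a b n false) := by
            rw [Lm_mk, ← Submodule.Quotient.mk_sub]
            show Submodule.Quotient.mk ((ι k (FreeGroup.of a) - 1) * alt k a b n false) = _
            rw [sub_mul, one_mul]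
          rw [e2, map_sub, hsq _ ha]
          exact sub_mem (hw _ _) (hfalse _)
    | zero => rw [map_zero]; exact zero_mem _
    | add x y _ _ hx hy => rw [map_add]; exact add_mem hx hy
    | smul r x _ hx => rw [map_smul]; exact Submodule.smul_mem _ _ hx
  have hB : ∀ v ∈ Submodule.span k (Set.range w),
      Lm k S N (FreeGroup.of b) v ∈ Submodule.span k (Set.range w) := by
    have htrue : ∀ n, Lm k S N (FreeGroup.of b) (Submodule.Quotient.mk (alt k a b n true)) ∈
        Submodule.span k (Set.range w) := by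
      intro n
      have e1 : Lm k S N (FreeGroup.of b) (Submodule.Quotient.mk (alt k a b n true)) =
          Submodule.Quotient.mk (alt k a b (n + 1) false) +
            Submodule.Quotient.mk (alt k a b n true) := by
        rw [Lm_mk, ← Submodule.Quotient.mk_add]
        show _ = Submodule.Quotient.mk ((ι k (FreeGroup.of b) - 1) * alt k a b n true + _)
        rw [sub_mul, one_mul, sub_add_cancel]
      rw [e1]
      exact add_mem (hw _ _) (hw _ _)
    intro v hv
    induction hv using Submodule.span_induction with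
    | mem x hx =>
      obtain ⟨⟨c, i, hi⟩, rfl⟩ := hx
      cases c with
      | true => exact htrue i
      | false =>
        cases i with
        | zero => exact htrue 0
        | succ n =>
          have e2 : (w (false, ⟨n + 1, hi⟩) : (MonoidAlgebra k (FreeGroup X)) ⧸ J k S N) =
              Lm k S N (FreeGroup.of b) (Submodule.Quotient.mk (alt k a b n true)) -
                Submodule.Quotient.mk (alt k a b n true) := by
            rw [Lm_mk, ← Submodule.Quotient.mk_sub]
            show Submodule.Quotient.mk ((ι k (FreeGroup.of b) - 1) * alt k a b n true) = _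
            rw [sub_mul, one_mul]
          rw [e2, map_sub, hsq _ hb]
          exact sub_mem (hw _ _) (htrue _)
    | zero => rw [map_zero]; exact zero_mem _
    | add x y _ _ hx hy => rw [map_add]; exact add_mem hx hy
    | smul r x _ hx => rw [map_smul]; exact Submodule.smul_mem _ _ hx
  have hx : ∀ x, ∀ v ∈ Submodule.span k (Set.range w),
      Lm k S N (FreeGroup.of x) v ∈ Submodule.span k (Set.range w) := by
    intro x v hv
    rcases h x with h1 | h1
    · rw [hval _ _ h1]; exact hA v hv
    · rw [hval _ _ h1]; exact hB v hv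
  have hinv : ∀ x, Lm k S N (FreeGroup.of x)⁻¹ = Lm k S N (FreeGroup.of x) := by
    intro x
    refine hval _ _ ?_
    have h2 : Qh k S N (FreeGroup.of x) * Qh k S N (FreeGroup.of x) = 1 := by
      rcases h x with h1 | h1
      · rw [h1]; exact ha
      · rw [h1]; exact hb
    rw [map_inv]
    exact inv_eq_of_mul_eq_one_left h2
  have hg : ∀ g : FreeGroup X, ∀ v ∈ Submodule.span k (Set.range w),
      Lm k S N g v ∈ Submodule.span k (Set.range w) := by
    intro g
    induction g using FreeGroup.induction_on with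
    | C1 => intro v hv; rw [map_one]; exact hv
    | of y => exact hx y
    | inv_of y _ => intro v hv; rw [hinv]; exact hx y v hv
    | mul u v hu hv => intro z hz; rw [map_mul]; exact hu _ (hv _ hz)
  have htop : Submodule.span k (Set.range w) = ⊤ := by
    refine span_mk S N _ fun g => ?_
    have h2 : (Submodule.Quotient.mk (ι k g) : (MonoidAlgebra k (FreeGroup X)) ⧸ J k S N) =
        Lm k S N g (Submodule.Quotient.mk 1) := by rw [Lm_mk, mul_one]
    rw [h2]
    exact hg g _ (hw 0 true)
  have h1 : finrank k (Submodule.span k (Set.range w)) ≤ Fintype.card (Bool × Fin N) :=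
    finrank_range_le_card w
  rw [htop, finrank_top, Fintype.card_prod, Fintype.card_bool, Fintype.card_fin] at h1
  exact h1

end quot

theorem two_le_card {G : Type*} [Group G] {H : Subgroup G} [Finite H] {g : G} (hg : g ∈ H)
    (h1 : g ≠ 1) : 2 ≤ Nat.card H := by
  by_contra hlt
  have h2 : 0 < Nat.card H := Nat.card_pos
  have h3 : Nat.card H = 1 := by omega
  rw [Subgroup.card_eq_one] at h3
  rw [h3, Subgroup.mem_bot] at hg
  exact h1 hg

theorem eq_of_card_two {G : Type*} [Group G] {H : Subgroup G} (hH : Nat.card H = 2) {u v : G}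
    (hu : u ∈ H) (hv : v ∈ H) (hu1 : u ≠ 1) (hv1 : v ≠ 1) : u = v := by
  rw [Nat.card_eq_two_iff' (1 : H)] at hH
  obtain ⟨y, -, hy⟩ := hH
  have h1 := hy ⟨u, hu⟩ (fun h => hu1 (congrArg Subtype.val h))
  have h2 := hy ⟨v, hv⟩ (fun h => hv1 (congrArg Subtype.val h))
  exact congrArg Subtype.val (h1.trans h2.symm)

theorem sq_of_card_two {G : Type*} [Group G] {H : Subgroup G} (hH : Nat.card H = 2) {u : G}
    (hu : u ∈ H) : u * u = 1 := by
  have h1 : (⟨u, hu⟩ : H) ^ Nat.card H = 1 := pow_card_eq_one'
  rw [hH, sq] at h1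
  exact congrArg Subtype.val h1

theorem gs_quot {p : ℕ} [Fact p.Prime] {X : Type*} [Fintype X] (B : Set X) (a b : X)
    (ha : a ∉ B) (hb : b ∈ B) (S : Set (FreeGroup X))
    (hS : ∀ s ∈ S, ι (ZMod p) s - 1 ∈ (Mi (ZMod p) X) ^ 2)
    (t : ℝ) (ht : 0 < t) (ht1 : t < 1)
    (hsum : Summable fun r : S => t ^ sSup (degSet (ZMod p) (r : FreeGroup X)))
    (hlt : 1 - (Fintype.card X : ℝ) * t +
      ∑' r : S, t ^ sSup (degSet (ZMod p) (r : FreeGroup X)) < 0) (m : ℕ) :
    ∃ K : Subgroup (FreeGroup X), K.Normal ∧ K.FiniteIndex ∧ Subgroup.normalClosure S ≤ K ∧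
      m ≤ K.index ∧ 2 ≤ K.relIndex (Subgroup.closure (FreeGroup.of '' Bᶜ)) ∧
      2 ≤ K.relIndex (Subgroup.closure (FreeGroup.of '' B)) ∧
      5 ≤ K.relIndex (Subgroup.closure (FreeGroup.of '' Bᶜ)) +
        K.relIndex (Subgroup.closure (FreeGroup.of '' B)) := by
  obtain ⟨N, hN2, hN, hN'⟩ := gs_growth S t ht ht1 hsum hlt m
  have hS' : ∀ s ∈ S, ι (ZMod p) s - 1 ∈ Fil (ZMod p) X 2 := by
    intro s hs
    rw [← pow_Mi (by omega)]
    exact hS s hs
  have hV : Finite (MonoidAlgebra (ZMod p) (FreeGroup X) ⧸ J (ZMod p) S N) :=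
    Module.finite_of_finite (ZMod p)
  have hE : Finite (Module.End (ZMod p) (MonoidAlgebra (ZMod p) (FreeGroup X) ⧸ J (ZMod p) S N)) :=
    Finite.of_injective (fun f => (f : _ → _)) DFunLike.coe_injective
  have hU : Finite (Module.End (ZMod p) (MonoidAlgebra (ZMod p) (FreeGroup X) ⧸ J (ZMod p) S N))ˣ :=
    Finite.of_injective _ Units.val_injective
  have hP : Finite (Qh (ZMod p) S N).range := inferInstance
  have hne := Qh_of_ne_one (k := ZMod p) hN2 hS'
  set FA := Subgroup.closure (FreeGroup.of '' Bᶜ : Set (FreeGroup X)) with hFA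
  set FB := Subgroup.closure (FreeGroup.of '' B : Set (FreeGroup X)) with hFB
  have hAin : ∀ x, x ∉ B → Qh (ZMod p) S N (FreeGroup.of x) ∈ FA.map (Qh (ZMod p) S N) :=
    fun x hx => ⟨_, Subgroup.subset_closure ⟨x, hx, rfl⟩, rfl⟩
  have hBin : ∀ x, x ∈ B → Qh (ZMod p) S N (FreeGroup.of x) ∈ FB.map (Qh (ZMod p) S N) :=
    fun x hx => ⟨_, Subgroup.subset_closure ⟨x, hx, rfl⟩, rfl⟩
  have h2A : 2 ≤ Nat.card (FA.map (Qh (ZMod p) S N)) := two_le_card (hAin a ha) (hne a)
  have h2B : 2 ≤ Nat.card (FB.map (Qh (ZMod p) S N)) := two_le_card (hBin b hb) (hne b)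
  refine ⟨(Qh (ZMod p) S N).ker, inferInstance, ?_, ?_, ?_, ?_, ?_, ?_⟩
  · exact ⟨by
      rw [Subgroup.index_ker]
      exact Nat.card_pos.ne'⟩
  · exact Subgroup.normalClosure_le_normal fun s hs => Qh_of_mem hs
  · rw [Subgroup.index_ker]
    exact hN.le.trans (bdim_le_card S N)
  · rw [Subgroup.relIndex_ker]; exact h2A
  · rw [Subgroup.relIndex_ker]; exact h2B
  · rw [Subgroup.relIndex_ker, Subgroup.relIndex_ker]
    by_contra hcon
    have hA2 : Nat.card (FA.map (Qh (ZMod p) S N)) = 2 := by omega
    have hB2 : Nat.card (FB.map (Qh (ZMod p) S N)) = 2 := by omega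
    have := bdim_le_dihedral S N a b (fun x => by
      by_cases hx : x ∈ B
      · exact Or.inr (eq_of_card_two hB2 (hBin x hx) (hBin b hb) (hne x) (hne b))
      · exact Or.inl (eq_of_card_two hA2 (hAin x hx) (hAin a ha) (hne x) (hne a)))
      (sq_of_card_two hA2 (hAin a ha)) (sq_of_card_two hB2 (hBin b hb))
    omega

/-- the general statement for two blocks -/
theorem large_general {p : ℕ} [Fact p.Prime] {X : Type*} (B : Set X) (N : Subgroup (FreeGroup X))
    (h : ∀ m : ℕ, ∃ K : Subgroup (FreeGroup X), K.Normal ∧ K.FiniteIndex ∧ N ≤ K ∧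
      m ≤ K.index ∧ 2 ≤ K.relIndex (Subgroup.closure (FreeGroup.of '' Bᶜ)) ∧
      2 ≤ K.relIndex (Subgroup.closure (FreeGroup.of '' B)) ∧
      5 ≤ K.relIndex (Subgroup.closure (FreeGroup.of '' Bᶜ)) +
        K.relIndex (Subgroup.closure (FreeGroup.of '' B)))
    (R : Set (FreeGroup X)) (hfin : R.Finite)
    (hR : R ⊆ (Subgroup.normalClosure ((N ⊓ Subgroup.closure (FreeGroup.of '' Bᶜ) :
        Subgroup (FreeGroup X)) : Set (FreeGroup X)) ⊔
      (Subgroup.normalClosure ((N ⊓ Subgroup.closure (FreeGroup.of '' B) :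
        Subgroup (FreeGroup X)) : Set (FreeGroup X)) ⊔
      (⁅N, N⁆ ⊔ Subgroup.closure {x | ∃ n ∈ N, x = n ^ p})) : Subgroup (FreeGroup X))) :
    Large (FreeGroup X ⧸ Subgroup.normalClosure R) := by
  let L : Finset (List (X × Bool)) :=
    hfin.toFinset.biUnion fun r => r.toWord.tails.toFinset
  obtain ⟨K, hK, hKf, hNK, hm, hA, hB, hAB⟩ := h (12 + 12 * L.card ^ 2 + 1)
  have : Fintype (FreeGroup X ⧸ K) := Fintype.ofFinite _
  have hrel : ∀ H : Subgroup (FreeGroup X),
      K.relIndex H = Nat.card (H.map (QuotientGroup.mk' K)) := by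
    intro H
    rw [← Subgroup.relIndex_ker, QuotientGroup.ker_mk']
  rw [hrel, hrel] at hAB
  rw [hrel] at hA hB
  refine core (q := QuotientGroup.mk' K) (QuotientGroup.mk'_surjective K)
    (fun r hr => le_Z (q := QuotientGroup.mk' K) (fun n hn => ?_) (hR hr)) L ?_ hA hB hAB ?_
  · exact (QuotientGroup.eq_one_iff n).mpr (hNK hn)
  · intro r hr u hu
    refine Finset.mem_biUnion.mpr ⟨r, hfin.mem_toFinset.mpr hr, ?_⟩
    rw [List.mem_toFinset, List.mem_tails]
    exact hu
  · rw [← Nat.card_eq_fintype_card]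
    have : K.index = Nat.card (FreeGroup X ⧸ K) := rfl
    omega

end Pool.H96.GS.Bk
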